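import Pool.Agent.H84.BQ.Def
import Pool.Agent.H91.LB.Ndj

/-!
[H84 BQ DIS]  BARRIER in measure: near events are disjoint.

An adaptation of `Pool.Agent.H91.LB.aw_dis` (Pool/Agent/H91/LB/Ndj.lean: `aw_aa`, `far_num`, `aw_far`, `aw_dis`; copy these four and change the numbers; `tayl`, `wr_Wc`, `n2_dec` are used as they are). Choose `d0 ≥ 1` with `(2 ‖c0‖ + 1) / d ≤ 1 / (768 √d)` for `d ≥ d0`
(`√d ≥ 768 (2 ‖c0‖ + 1)`). Then `AV` gives: (p0') `‖wd w (FF X w)‖ ≤ 1 / (768 √d)`, `‖wd w (jv X w 1)‖ ≤ 1 / 768`, `d ≤ ‖wd w (jv X w 2)‖ ≤ 3 d`, `1 ≤ ‖hm (FF X w) w‖ ≤ 3`, and `bd`. These are the conditions of `AW` with the one change `1 / (768 d)` → `1 / (768 √d)`, which the proofs allow: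
in `aw_aa`: `1 / (768 √d) * (9 * (2 √d)) = 18 / 768`; in `far_num` (`s = √d`, hypothesis `n0 : ‖a0‖ ≤ 1 / (768 * s)`): `‖N‖ ≤ 1 / (768 s) + ‖t‖ / 768 + 3 D ‖t‖ + 144 y^3`, and after multiplication by `36 s` the first term is `36 / 768`, as before (before it was `36 / 768 * (s / d) ≤ 36 / 768`).
-/

set_option autoImplicit false

open Finset MeasureTheory Polynomial

namespace Pool.Agent.H84.BQ

open Pool.H70.SF Pool.Agent.H73.ES Pool.Agent.H41.RF Pool.Agent.H91.LB Pool.Agent.H44.Fatou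

/-- the conditions used by the proofs -/
structure AWs {d : ℕ} (w : ℂ × ℂ) (X : CV d) : Prop where
  p0 : ‖wd w (FF X w)‖ ≤ 1 / (768 * Real.sqrt d)
  p1 : ‖wd w (jv X w 1)‖ ≤ 1 / 768
  p2l : (d : ℝ) ≤ ‖wd w (jv X w 2)‖
  p2u : ‖wd w (jv X w 2)‖ ≤ 3 * d
  q0l : 1 ≤ ‖hm (FF X w) w‖
  q0u : ‖hm (FF X w) w‖ ≤ 3
  bd : ∀ k, ‖wd w (jv X w k)‖ ≤ 9 * (2 * Real.sqrt d) ^ k ∧ ‖hm (jv X w k) w‖ ≤ 9 * (2 * Real.sqrt d) ^ k

/-- at the point of the event the derivative is small -/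
theorem av_aa {d : ℕ} (hd : 1 ≤ d) {w : ℂ × ℂ} (hw : IsU w) {X : CV d} (H : AWs w X) : ‖aa X w‖ < 1 := by
  have hD1 : (1 : ℝ) ≤ d := by exact_mod_cast hd
  have hD0 : (0 : ℝ) < d := by linarith
  have hs0 : 0 ≤ Real.sqrt d := Real.sqrt_nonneg _
  have hsd : Real.sqrt d ≤ d := by
    rw [Real.sqrt_le_left hD0.le]
    nlinarith
  have h1 := Pool.Agent.H73.ES.hrel X hw
  have hdne : (d : ℂ) ≠ 0 := by exact_mod_cast hD0.ne'
  have h2 : aa X w = wd (FF X w) (jv X w 1) / (n2 (FF X w) : ℂ) := by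
    unfold aa
    rw [← h1, mul_div_mul_left _ _ hdne]
  have h3 : wd (FF X w) (jv X w 1) = hm (FF X w) w * wd w (jv X w 1) - wd w (FF X w) * hm (jv X w 1) w := by
    have e1 := dec hw (FF X w)
    have e2 := dec hw (jv X w 1)
    have e3 : wd w (pp w) = 1 := Pool.Agent.H47.SF.wd_pp hw
    generalize hm (FF X w) w = a at *
    generalize wd w (FF X w) = b at *
    generalize hm (jv X w 1) w = a' at *
    generalize wd w (jv X w 1) = b' at *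
    rw [e1, e2]
    unfold wd at e3 ⊢
    simp only [Prod.fst_add, Prod.snd_add, Prod.smul_fst, Prod.smul_snd, smul_eq_mul]
    linear_combination (a * b' - b * a') * e3
  have h4 : 1 ≤ n2 (FF X w) := by
    rw [n2_dec hw]
    have := H.q0l
    nlinarith [sq_nonneg ‖wd w (FF X w)‖]
  have h5 : ‖wd (FF X w) (jv X w 1)‖ ≤ 21 / 768 := by
    rw [h3]
    refine (norm_sub_le _ _).trans ?_
    rw [norm_mul, norm_mul]
    have a1 := H.q0u
    have a2 := H.p1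
    have a3 := H.p0
    have a4 := (H.bd 1).2
    rw [pow_one] at a4
    have b1 : ‖hm (FF X w) w‖ * ‖wd w (jv X w 1)‖ ≤ 3 * (1 / 768) := by gcongr
    have b2 : ‖wd w (FF X w)‖ * ‖hm (jv X w 1) w‖ ≤ 1 / (768 * Real.sqrt d) * (9 * (2 * Real.sqrt d)) := by gcongr
    have hs1 : 0 < Real.sqrt d := Real.sqrt_pos.2 hD0
    have b3 : 1 / (768 * Real.sqrt d) * (9 * (2 * Real.sqrt d)) ≤ 18 / 768 := by
      rw [div_mul_eq_mul_div, div_le_div_iff₀ (by positivity) (by norm_num)]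
      nlinarith
    linarith
  rw [h2, norm_div, Complex.norm_real, Real.norm_eq_abs, abs_of_nonneg (by linarith),
    div_lt_one (by linarith)]
  linarith

/-- the numerical part of `aw_far` -/
theorem av_far_num {d s D y : ℝ} {t N N' Hh H' a0 a1 a2 b0 : ℂ} (hD1 : 1 ≤ d) (hs1 : 1 ≤ s) (hss : s * s = d)
    (hy : y = s * ‖t‖) (hDd : D = d * ‖t‖) (hy1 : y ≤ 1 / 10000) (hD10 : 10 ≤ D)
    (T1 : ‖N - (a0 + a1 * t + a2 * t ^ 2)‖ ≤ 2 * 9 * (2 * y) ^ 3)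
    (T2 : ‖N' - (a1 + 2 * a2 * t)‖ ≤ 2 * (18 * s) * (4 * y) ^ 2)
    (T3 : ‖Hh - b0‖ ≤ 2 * 9 * (2 * y)) (T4 : ‖H'‖ ≤ 2 * (18 * s))
    (n0 : ‖a0‖ ≤ 1 / (768 * s)) (n1 : ‖a1‖ ≤ 1 / 768) (n2l : d ≤ ‖a2‖) (n2u : ‖a2‖ ≤ 3 * d)
    (h0l : 1 ≤ ‖b0‖) (h0u : ‖b0‖ ≤ 3) :
    1.8 * D ≤ ‖N' * Hh - N * H'‖ ∧ ‖Hh‖ ^ 2 + ‖N‖ ^ 2 ≤ 17 ∧ 0 < ‖Hh‖ ^ 2 + ‖N‖ ^ 2 := by
  have hD0 : (0 : ℝ) < d := by linarith
  have hs0 : 0 < s := by linarith
  have ht0 : 0 ≤ ‖t‖ := norm_nonneg t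
  have hy0 : 0 ≤ y := by rw [hy]; positivity
  have hDy : D = s * y := by rw [hDd, hy, ← mul_assoc, hss]
  have htle : ‖t‖ ≤ y := by
    rw [hy]
    nlinarith
  have hN : ‖N‖ ≤ 1 / (768 * s) + ‖t‖ / 768 + 3 * D * ‖t‖ + 144 * y ^ 3 := by
    have h5 : N = a0 + a1 * t + a2 * t ^ 2 + (N - (a0 + a1 * t + a2 * t ^ 2)) := by ring
    rw [h5]
    refine (norm_add_le _ _).trans (add_le_add ((norm_add_le _ _).trans (add_le_add ((norm_add_le _ _).trans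
      (add_le_add n0 ?_)) ?_)) (T1.trans (le_of_eq (by ring))))
    · rw [norm_mul]
      have : ‖a1‖ * ‖t‖ ≤ 1 / 768 * ‖t‖ := by gcongr
      linarith
    · rw [norm_mul, norm_pow]
      have h6 : ‖a2‖ * ‖t‖ ^ 2 ≤ 3 * d * ‖t‖ ^ 2 := by gcongr
      have h7 : 3 * d * ‖t‖ ^ 2 = 3 * D * ‖t‖ := by rw [hDd]; ring
      linarith
  have hH : ‖Hh‖ ≤ 4 := by
    have h5 : ‖Hh‖ ≤ ‖Hh - b0‖ + ‖b0‖ := by
      have := norm_add_le (Hh - b0) b0
      rwa [sub_add_cancel] at this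
    linarith
  have hH2 : 99 / 100 ≤ ‖Hh‖ := by
    have h5 : ‖b0‖ ≤ ‖b0 - Hh‖ + ‖Hh‖ := by
      have := norm_add_le (b0 - Hh) Hh
      rwa [sub_add_cancel] at this
    rw [norm_sub_rev] at h5
    linarith
  have hH' : ‖H'‖ ≤ 36 * s := by linarith
  have hN' : 19 / 10 * D ≤ ‖N'‖ := by
    have h5 : ‖2 * a2 * t‖ ≤ ‖2 * a2 * t + a1 - N'‖ + ‖a1‖ + ‖N'‖ := by
      have h6 : 2 * a2 * t = (2 * a2 * t + a1 - N') - a1 + N' := by ring
      have h7 : ‖2 * a2 * t‖ = ‖(2 * a2 * t + a1 - N') - a1 + N'‖ := by rw [← h6]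
      have h8 := norm_add_le ((2 * a2 * t + a1 - N') - a1) N'
      have h9 := norm_sub_le (2 * a2 * t + a1 - N') a1
      linarith
    have h6 : ‖2 * a2 * t + a1 - N'‖ ≤ 2 * (18 * s) * (4 * y) ^ 2 := by
      rw [norm_sub_rev]
      have : N' - (2 * a2 * t + a1) = N' - (a1 + 2 * a2 * t) := by ring
      rw [this]
      exact T2
    have h7 : 2 * D ≤ ‖2 * a2 * t‖ := by
      rw [norm_mul, norm_mul]
      have h3 : ‖(2 : ℂ)‖ = 2 := by simp
      rw [h3, hDd]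
      have := mul_le_mul_of_nonneg_right n2l ht0
      nlinarith
    have h8 : 2 * (18 * s) * (4 * y) ^ 2 = 576 * (D * y) := by
      rw [hDy]
      ring
    have h9 : D * y ≤ D * (1 / 10000) := by gcongr
    rw [h8] at h6
    linarith
  have hNH : ‖N‖ * ‖H'‖ ≤ 5 / 100 * D := by
    have h5 : ‖N‖ * ‖H'‖ ≤ (1 / (768 * s) + ‖t‖ / 768 + 3 * D * ‖t‖ + 144 * y ^ 3) * (36 * s) :=
      mul_le_mul hN hH' (norm_nonneg _) (by positivity)
    have h6 : (1 / (768 * s) + ‖t‖ / 768 + 3 * D * ‖t‖ + 144 * y ^ 3) * (36 * s) =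
        36 / 768 + 36 / 768 * (s * ‖t‖) + 108 * D * (s * ‖t‖) + 5184 * (s * y) * y ^ 2 := by
      field_simp
      ring
    have h8 : D * y ≤ D * (1 / 10000) := by gcongr
    have h9 : D * y ^ 2 ≤ D * (1 / 10000) ^ 2 := by gcongr
    rw [h6, ← hDy, ← hy] at h5
    norm_num at h9
    linarith
  refine ⟨?_, ?_, ?_⟩
  · have h6 : ‖N' * Hh‖ ≤ ‖N' * Hh - N * H'‖ + ‖N * H'‖ := by
      have := norm_add_le (N' * Hh - N * H') (N * H')
      rwa [sub_add_cancel] at this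
    rw [norm_mul, norm_mul] at h6
    have h7 : 19 / 10 * D * (99 / 100) ≤ ‖N'‖ * ‖Hh‖ := by gcongr
    norm_num
    linarith
  · have hNs : ‖N‖ ≤ 1 := by
      have h5 : 1 / (768 * s) ≤ 1 / 768 := by
        apply one_div_le_one_div_of_le (by norm_num)
        linarith
      have h6 : D * ‖t‖ = y ^ 2 := by
        rw [hDy, hy]
        ring
      have h7 : y ^ 2 ≤ (1 / 10000) ^ 2 := by gcongr
      have h8 : y ^ 3 ≤ (1 / 10000) ^ 3 := by gcongr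
      norm_num at h7 h8
      have h9 : 3 * D * ‖t‖ = 3 * y ^ 2 := by rw [mul_assoc, h6]
      rw [h9] at hN
      linarith
    have := norm_nonneg Hh
    have := norm_nonneg N
    nlinarith
  · have := sq_nonneg ‖N‖
    nlinarith

/-- away from the point of the event the derivative is large -/
theorem av_far {d : ℕ} (hd : 1 ≤ d) {w w' : ℂ × ℂ} (hw : IsU w) (hw' : IsU w') {X : CV d} (H : AWs w X)
    (h1 : 10 / (d : ℝ) ≤ ‖wd w w'‖) (h2 : ‖wd w w'‖ ≤ 1 / 20000 / Real.sqrt d) : 1 ≤ ‖aa X w'‖ := by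
  have hD1 : (1 : ℝ) ≤ d := by exact_mod_cast hd
  have hD0 : (0 : ℝ) < d := by linarith
  have hs1 : 1 ≤ Real.sqrt d := Real.one_le_sqrt.2 hD1
  have hs0 : 0 < Real.sqrt d := by linarith
  have hss : Real.sqrt d * Real.sqrt d = d := Real.mul_self_sqrt hD0.le
  have h3 : 1 / 20000 / Real.sqrt d ≤ 1 / 20000 := by
    rw [div_le_iff₀ hs0]
    nlinarith
  obtain ⟨lam, t, hwt, hlt, hwl⟩ := Pool.Agent.H47.SF.exists_chart hw hw' (by linarith : ‖wd w w'‖ < 1)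
  have hs : ‖lam‖ * ‖t‖ = ‖wd w w'‖ := by rw [hwl, norm_mul]
  have ht1 := Pool.Agent.H47.SF.t_le hlt hs (by linarith)
  have ht2 : ‖wd w w'‖ ≤ ‖t‖ := by
    have h4 : ‖lam‖ ≤ 1 := by
      have := norm_nonneg lam
      have := sq_nonneg ‖t‖
      nlinarith
    rw [← hs]
    nlinarith [norm_nonneg t]
  obtain ⟨y, hy⟩ : ∃ y : ℝ, y = Real.sqrt d * ‖t‖ := ⟨_, rfl⟩
  have hy0 : 0 ≤ y := by rw [hy]; positivity
  have hy1 : y ≤ 1 / 10000 := by
    have h4 : ‖t‖ ≤ 1.01 * (1 / 20000 / Real.sqrt d) := ht1.trans (by linarith)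
    calc y ≤ Real.sqrt d * (1.01 * (1 / 20000 / Real.sqrt d)) := by rw [hy]; gcongr
      _ = 1.01 / 20000 := by field_simp
      _ ≤ 1 / 10000 := by norm_num
  obtain ⟨D, hDd⟩ : ∃ D : ℝ, D = d * ‖t‖ := ⟨_, rfl⟩
  have hD10 : 10 ≤ D := by
    have h4 : 10 / (d : ℝ) ≤ ‖t‖ := h1.trans ht2
    rw [div_le_iff₀ hD0] at h4
    rw [hDd]
    linarith
  have hB0 : 0 ≤ 2 * Real.sqrt d := by positivity
  have hB1 : 2 * Real.sqrt d * ‖t‖ = 2 * y := by rw [hy]; ring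
  have hB2 : 4 * Real.sqrt d * ‖t‖ = 4 * y := by rw [hy]; ring
  -- derivative coefficients
  have c1 : ∀ (p : Polynomial ℂ) (m : ℕ), (∀ k, m + 1 ≤ k → ‖p.coeff k‖ ≤ 9 * (2 * Real.sqrt d) ^ k) →
      ∀ k, m ≤ k → ‖(derivative p).coeff k‖ ≤ 18 * Real.sqrt d * (4 * Real.sqrt d) ^ k := by
    intro p m hp k hk
    have e1 : ‖(derivative p).coeff k‖ = ‖p.coeff (k + 1)‖ * ((k : ℝ) + 1) := by
      rw [coeff_derivative, norm_mul]
      congr 1
      have : ((k : ℂ) + 1) = (((k : ℝ) + 1 : ℝ) : ℂ) := by push_cast; ring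
      rw [this, Complex.norm_real, Real.norm_eq_abs, abs_of_nonneg (by positivity)]
    have e2 : ((k : ℝ) + 1) ≤ 2 ^ k := by
      have h5 : k < 2 ^ k := Nat.lt_two_pow_self
      exact_mod_cast h5
    rw [e1]
    calc ‖p.coeff (k + 1)‖ * ((k : ℝ) + 1) ≤ (9 * (2 * Real.sqrt d) ^ (k + 1)) * 2 ^ k := by
          gcongr
          exact hp (k + 1) (by omega)
      _ = 18 * Real.sqrt d * (4 * Real.sqrt d) ^ k := by
          have : (4 * Real.sqrt d) = (2 * Real.sqrt d) * 2 := by ring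
          rw [this, mul_pow (2 * Real.sqrt d) 2, pow_succ]
          ring
  have bN : ∀ k, ‖(nP X w).coeff k‖ ≤ 9 * (2 * Real.sqrt d) ^ k := fun k => by
    rw [nP_coeff]
    exact (H.bd k).1
  have bH : ∀ k, ‖(hP X w).coeff k‖ ≤ 9 * (2 * Real.sqrt d) ^ k := fun k => by
    rw [hP_coeff]
    exact (H.bd k).2
  have T1 := tayl (nP X w) (A := 9) (by norm_num) hB0 3 (fun k _ => bN k) (t := t) (by rw [hB1]; linarith)
  have T2 := tayl (derivative (nP X w)) (A := 18 * Real.sqrt d) (B := 4 * Real.sqrt d) (by positivity) (by positivity) 2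
    (c1 _ 2 fun k _ => bN k) (t := t) (by rw [hB2]; linarith)
  have T3 := tayl (hP X w) (A := 9) (by norm_num) hB0 1 (fun k _ => bH k) (t := t) (by rw [hB1]; linarith)
  have T4 := tayl (derivative (hP X w)) (A := 18 * Real.sqrt d) (B := 4 * Real.sqrt d) (by positivity) (by positivity) 0
    (c1 _ 0 fun k _ => bH k) (t := t) (by rw [hB2]; linarith)
  rw [hB1, Finset.sum_range_succ, Finset.sum_range_succ, Finset.sum_range_one] at T1
  rw [hB2, Finset.sum_range_succ, Finset.sum_range_one] at T2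
  rw [hB1, Finset.sum_range_one] at T3
  rw [Finset.sum_range_zero] at T4
  simp only [pow_zero, mul_one, pow_one, sub_zero] at T1 T2 T3 T4
  have e1 : (derivative (nP X w)).coeff 0 = (nP X w).coeff 1 := by rw [coeff_derivative]; simp
  have e2 : (derivative (nP X w)).coeff 1 = 2 * (nP X w).coeff 2 := by
    rw [coeff_derivative]
    push_cast
    ring
  rw [e1, e2] at T2
  have q0 : (nP X w).coeff 0 = wd w (FF X w) := by rw [nP_coeff, jv_zero]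
  have q1 : (hP X w).coeff 0 = hm (FF X w) w := by rw [hP_coeff, jv_zero]
  have n0 : ‖(nP X w).coeff 0‖ ≤ 1 / (768 * Real.sqrt d) := by rw [q0]; exact H.p0
  have n1 : ‖(nP X w).coeff 1‖ ≤ 1 / 768 := by rw [nP_coeff]; exact H.p1
  have n2l : (d : ℝ) ≤ ‖(nP X w).coeff 2‖ := by rw [nP_coeff]; exact H.p2l
  have n2u : ‖(nP X w).coeff 2‖ ≤ 3 * d := by rw [nP_coeff]; exact H.p2u
  have h0l : 1 ≤ ‖(hP X w).coeff 0‖ := by rw [q1]; exact H.q0l
  have h0u : ‖(hP X w).coeff 0‖ ≤ 3 := by rw [q1]; exact H.q0u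
  obtain ⟨hW, hn1, hn2⟩ := av_far_num hD1 hs1 hss hy hDd hy1 hD10 T1 T2 T3 T4 n0 n1 n2l n2u h0l h0u
  have h5 : (Wr (nP X w) (hP X w)).eval t = (derivative (nP X w)).eval t * (hP X w).eval t -
      (nP X w).eval t * (derivative (hP X w)).eval t := by
    unfold Wr
    rw [eval_sub, eval_mul, eval_mul]
  rw [← h5, wr_Wc hd X hw] at hW
  have h6 : Pool.Agent.H47.SF.nuF X (w + t • Pool.Agent.H47.SF.pp w) ^ 2 =
      ‖(hP X w).eval t‖ ^ 2 + ‖(nP X w).eval t‖ ^ 2 := by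
    rw [Pool.Agent.H47.SF.nuF_sq]
    have h7 := n2_dec hw (FF X (w + t • pp w))
    rw [← hP_eval, ← nP_eval] at h7
    exact h7
  rw [← h6] at hn1 hn2
  clear T1 T2 T3 T4 n0 n1 n2l n2u h0l h0u q0 q1 e1 e2 bN bH c1 h5 h6
  have hnu : 0 < Pool.Agent.H47.SF.nuF X (w + t • Pool.Agent.H47.SF.pp w) := by
    have h5 := Pool.Agent.H47.SF.nuF_nonneg X (w + t • Pool.Agent.H47.SF.pp w)
    rcases h5.lt_or_eq with h | h
    · exact h
    · exfalso
      rw [← h] at hn2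
      norm_num at hn2
  have hfin := Pool.Agent.H47.SF.aa_chart hd X hlt hnu
  rw [← hwt] at hfin
  by_contra hcon
  rw [not_le] at hcon
  have h5 : ‖aa X w'‖ * Pool.Agent.H47.SF.nuF X (w + t • Pool.Agent.H47.SF.pp w) ^ 2 ≤ 1 * 17 := by
    apply mul_le_mul hcon.le hn1 (sq_nonneg _) (by norm_num)
  rw [hfin] at h5
  have h6 : ‖Pool.Agent.H47.SF.Wc X w t‖ * 1 ≤ ‖Pool.Agent.H47.SF.Wc X w t‖ * (1 + ‖t‖ ^ 2) := by
    gcongr
    nlinarith [sq_nonneg ‖t‖]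
  norm_num at hW
  linarith

/-- the event implies the conditions -/
theorem av_aws {d : ℕ} (hd : 1 ≤ d) {c0 : ℂ} {e : ℝ} (he : 0 < e) (he1 : e ≤ 1 / 768)
    (hs : 768 * (2 * ‖c0‖ + 1) ≤ Real.sqrt d) {w : ℂ × ℂ} {X : CV d} (H : AV c0 e w X) : AWs w X := by
  have hD1 : (1 : ℝ) ≤ d := by exact_mod_cast hd
  have hD0 : (0 : ℝ) < d := by linarith
  have hs0 : 0 < Real.sqrt d := Real.sqrt_pos.2 hD0
  have hss : Real.sqrt d * Real.sqrt d = d := Real.mul_self_sqrt hD0.le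
  refine ⟨?_, H.p1.trans he1, ?_, ?_, ?_, ?_, H.bd⟩
  · have h1 : ‖wd w (FF X w)‖ ≤ ‖wd w (FF X w) - 2 * c0 / (d : ℂ)‖ + ‖2 * c0 / (d : ℂ)‖ := by
      have := norm_add_le (wd w (FF X w) - 2 * c0 / (d : ℂ)) (2 * c0 / (d : ℂ))
      rwa [sub_add_cancel] at this
    have h2 : ‖2 * c0 / (d : ℂ)‖ = 2 * ‖c0‖ / d := by
      rw [norm_div, norm_mul, Complex.norm_natCast]
      simp
    have h3 : ‖wd w (FF X w)‖ ≤ (2 * ‖c0‖ + 1) / d := by
      have h4 : e / d ≤ 1 / d := by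
        apply div_le_div_of_nonneg_right _ hD0.le
        linarith
      have h5 := H.p0
      rw [add_div]
      linarith
    refine h3.trans ?_
    rw [div_le_div_iff₀ hD0 (by positivity)]
    calc (2 * ‖c0‖ + 1) * (768 * Real.sqrt d) = 768 * (2 * ‖c0‖ + 1) * Real.sqrt d := by ring
      _ ≤ Real.sqrt d * Real.sqrt d := by gcongr
      _ = 1 * d := by rw [hss, one_mul]
  · have h1 : ‖2 * (d : ℂ)‖ ≤ ‖2 * (d : ℂ) - wd w (jv X w 2)‖ + ‖wd w (jv X w 2)‖ := by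
      have := norm_add_le (2 * (d : ℂ) - wd w (jv X w 2)) (wd w (jv X w 2))
      rwa [sub_add_cancel] at this
    have h2 : ‖2 * (d : ℂ)‖ = 2 * d := by
      rw [norm_mul, Complex.norm_natCast]
      simp
    rw [norm_sub_rev] at h1
    have h3 := H.p2
    have h4 : e * d ≤ 1 * d := by
      apply mul_le_mul_of_nonneg_right _ hD0.le
      linarith
    linarith
  · have h1 : ‖wd w (jv X w 2)‖ ≤ ‖wd w (jv X w 2) - 2 * (d : ℂ)‖ + ‖2 * (d : ℂ)‖ := by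
      have := norm_add_le (wd w (jv X w 2) - 2 * (d : ℂ)) (2 * (d : ℂ))
      rwa [sub_add_cancel] at this
    have h2 : ‖2 * (d : ℂ)‖ = 2 * d := by
      rw [norm_mul, Complex.norm_natCast]
      simp
    have h3 := H.p2
    have h4 : e * d ≤ 1 * d := by
      apply mul_le_mul_of_nonneg_right _ hD0.le
      linarith
    linarith
  · have h1 : ‖(2 : ℂ)‖ ≤ ‖2 - hm (FF X w) w‖ + ‖hm (FF X w) w‖ := by
      have := norm_add_le (2 - hm (FF X w) w) (hm (FF X w) w)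
      rwa [sub_add_cancel] at this
    rw [norm_sub_rev] at h1
    have h2 : ‖(2 : ℂ)‖ = 2 := by simp
    have h3 := H.q0
    linarith
  · have h1 : ‖hm (FF X w) w‖ ≤ ‖hm (FF X w) w - 2‖ + ‖(2 : ℂ)‖ := by
      have := norm_add_le (hm (FF X w) w - 2) 2
      rwa [sub_add_cancel] at this
    have h2 : ‖(2 : ℂ)‖ = 2 := by simp
    have h3 := H.q0
    linarith

theorem av_dis (c0 : ℂ) {e : ℝ} (he : 0 < e) (he1 : e ≤ 1 / 768) :
    ∃ ε : ℝ, 0 < ε ∧ ∃ d0 : ℕ, ∀ d ≥ d0, ∀ w w', IsU w → IsU w' → 10 / (d : ℝ) ≤ ‖wd w w'‖ →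
      ‖wd w w'‖ ≤ ε / Real.sqrt d → ∀ X : CV d, AV c0 e w X → ¬ AV c0 e w' X := by
  obtain ⟨d1, hd1⟩ := exists_nat_ge ((768 * (2 * ‖c0‖ + 1)) ^ 2)
  refine ⟨1 / 20000, by norm_num, max 1 d1, fun d hd w w' hw hw' h1 h2 X H H' => ?_⟩
  have hd0 : 1 ≤ d := le_trans (le_max_left _ _) hd
  have hs : 768 * (2 * ‖c0‖ + 1) ≤ Real.sqrt d := by
    apply Real.le_sqrt_of_sq_le
    have h3 : (d1 : ℝ) ≤ d := by exact_mod_cast le_trans (le_max_right _ _) hd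
    linarith
  have h3 := av_far hd0 hw hw' (av_aws hd0 he he1 hs H) h1 h2
  have h4 := av_aa hd0 hw' (av_aws hd0 he he1 hs H')
  linarith

end Pool.Agent.H84.BQ
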