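import Pool.Agent.H84.BQ.Low
import Pool.Agent.H84.BQ.Pai
import Pool.Agent.H84.BQ.Dis
import Pool.Agent.H91.LB.FinE

/-!
[H84 BQ CNT]  BARRIER in measure: the union of the events has probability `≥ exp (- C (1 + 1 / τ ^ 2)) / d`.

An adaptation of `aw_meas`, `lower_one` (Pool/Agent/H91/LB/Fin.lean), `lower_coreE`, `lower_allE` (FinE.lean): copy and change. `L` is an arbitrary property of the pairs (it replaces `Lat`) which holds on the events (`hdet`, this replaces `AwLat`) and is invariant under scalars (`hsm`, this replaces `lat_smul`).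
`av_meas`: as `aw_meas` (closed conditions). `lower_one` with `AV c0 e` in place of `AW`: same proof. `lower_coreE`: the threshold `M` also contains the `d0` of `av_low` (so `d ≥ d0` for `M ≤ d`).
-/

set_option autoImplicit false

open Finset MeasureTheory

namespace Pool.Agent.H84.BQ

open Pool.H70.SF Pool.Agent.H73.ES Pool.Agent.H41.RF Pool.Agent.H91.LB

theorem av_meas {d : ℕ} (c0 : ℂ) (e : ℝ) (w : ℂ × ℂ) : MeasurableSet {X : CV d | AV c0 e w X} := by
  have hw' : ∀ k, Continuous fun X : CV d => wd w (jv X w k) := by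
    intro k
    have h1 := jv_cont (d := d) w k
    unfold wd
    exact (continuous_const.mul h1.snd).sub (continuous_const.mul h1.fst)
  have hw : ∀ k, Continuous fun X : CV d => ‖wd w (jv X w k)‖ := fun k => (hw' k).norm
  have hh' : ∀ k, Continuous fun X : CV d => hm (jv X w k) w := by
    intro k
    have h1 := jv_cont (d := d) w k
    unfold hm
    exact (h1.fst.mul continuous_const).add (h1.snd.mul continuous_const)
  have hh : ∀ k, Continuous fun X : CV d => ‖hm (jv X w k) w‖ := fun k => (hh' k).norm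
  have hw0 : Continuous fun X : CV d => ‖wd w (FF X w) - 2 * c0 / (d : ℂ)‖ := by
    have h1 := hw' 0
    simp only [jv_zero] at h1
    exact (h1.sub continuous_const).norm
  have hw2 : Continuous fun X : CV d => ‖wd w (jv X w 2) - 2 * (d : ℂ)‖ := ((hw' 2).sub continuous_const).norm
  have hh0 : Continuous fun X : CV d => ‖hm (FF X w) w - 2‖ := by
    have h1 := hh' 0
    simp only [jv_zero] at h1
    exact (h1.sub continuous_const).norm
  have h1 : {X : CV d | AV c0 e w X} = {X | ‖wd w (FF X w) - 2 * c0 / (d : ℂ)‖ ≤ e / d} ∩ {X | ‖wd w (jv X w 1)‖ ≤ e} ∩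
      {X | ‖wd w (jv X w 2) - 2 * (d : ℂ)‖ ≤ e * d} ∩ {X | ‖hm (FF X w) w - 2‖ ≤ e} ∩
      (⋂ k, {X | ‖wd w (jv X w k)‖ ≤ 9 * (2 * Real.sqrt d) ^ k}) ∩
      (⋂ k, {X | ‖hm (jv X w k) w‖ ≤ 9 * (2 * Real.sqrt d) ^ k}) := by
    ext X
    simp only [Set.mem_ofPred_eq, Set.mem_inter_iff, Set.mem_iInter]
    constructor
    · intro H
      exact ⟨⟨⟨⟨⟨H.p0, H.p1⟩, H.p2⟩, H.q0⟩, fun k => (H.bd k).1⟩, fun k => (H.bd k).2⟩
    · rintro ⟨⟨⟨⟨⟨a1, a2⟩, a3⟩, a4⟩, a7⟩, a8⟩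
      exact ⟨a1, a2, a3, a4, fun k => ⟨a7 k, a8 k⟩⟩
  rw [h1]
  refine ((((((isClosed_le hw0 continuous_const).inter (isClosed_le (hw 1) continuous_const)).inter
    (isClosed_le hw2 continuous_const)).inter
    (isClosed_le hh0 continuous_const)).inter
    (isClosed_iInter fun k => isClosed_le (hw k) continuous_const)).inter
    (isClosed_iInter fun k => isClosed_le (hh k) continuous_const)).measurableSet

/-- the union of the events for one pair `d, τ` -/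
theorem lower_one (c0 : ℂ) (e : ℝ) {d : ℕ} (L : CV d → Prop) {τ c C ε : ℝ} (hτ : 0 < τ) (hc : 0 < c) (hC : 0 ≤ C) (hd3 : 64 ≤ d)
    (hd4 : C / (128 * c) ≤ d) {X0 : CV d}
    (hlow : ∀ A : ℝ, 0 ≤ A → gau A X0 τ Set.univ = 1 → ∀ w, IsU w →
      ENNReal.ofReal (c / (d : ℝ) ^ 3) ≤ gau A X0 τ {X | AV c0 e w X})
    (hpair : ∀ A : ℝ, 0 ≤ A → gau A X0 τ Set.univ ≤ 1 → ∀ w w', IsU w → IsU w' → ε / Real.sqrt d ≤ ‖wd w w'‖ →
      gau A X0 τ {X | AV c0 e w X ∧ AV c0 e w' X} ≤ ENNReal.ofReal (C / (d : ℝ) ^ 6))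
    (hlat : ∀ z : ℂ, ‖z‖ ≤ 1 → ∀ X : CV d, AV c0 e (wz z) X → L X)
    (hdis : ∀ w w', IsU w → IsU w' → 10 / (d : ℝ) ≤ ‖wd w w'‖ →
      ‖wd w w'‖ ≤ ε / Real.sqrt d → ∀ X : CV d, AV c0 e w X → ¬ AV c0 e w' X) :
    ENNReal.ofReal (c / 8192 / d) ≤ gE d {ξ | L (XG X0 τ ξ)} := by
  have hD0 : (0 : ℝ) < d := by exact_mod_cast (by omega : 0 < d)
  obtain ⟨A, hA0, hlaw⟩ := law_eq X0 hτ
  have hXm : Measurable (XG X0 τ : CV d → CV d) := by
    unfold XG Gs
    fun_prop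
  have hprob : gau A X0 τ Set.univ = 1 := by
    rw [← hlaw, Measure.map_apply hXm MeasurableSet.univ, Set.preimage_univ, measure_univ]
  obtain ⟨N, hN⟩ : ∃ N : ℕ, N = d / 32 := ⟨_, rfl⟩
  have hN1 : 32 * N ≤ d := by omega
  have hN2 : d ≤ 64 * N := by omega
  have hN1' : (32 : ℝ) * N ≤ d := by exact_mod_cast hN1
  have hN2' : (d : ℝ) ≤ 64 * N := by exact_mod_cast hN2
  set s : Finset (ℕ × ℕ) := range N ×ˢ range N with hs
  have hcard : (s.card : ℝ) = (N : ℝ) ^ 2 := by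
    rw [hs, card_product, card_range]
    push_cast
    ring
  have hmem : ∀ i ∈ s, i.1 ≤ N ∧ i.2 ≤ N := by
    intro i hi
    rw [hs, mem_product, mem_range, mem_range] at hi
    exact ⟨hi.1.le, hi.2.le⟩
  set B : ℕ × ℕ → Set (CV d) := fun i => {X | AV c0 e (wz (gz d i)) X} with hB
  have hbon := bonf (gau A X0 τ) B (fun i => av_meas c0 e _) s
  have hlo : (N : ℝ) ^ 2 * (c / (d : ℝ) ^ 3) ≤ (N : ℝ) ^ 2 * (c / (d : ℝ) ^ 3) := le_rfl
  have h1 : ENNReal.ofReal ((N : ℝ) ^ 2 * (c / (d : ℝ) ^ 3)) ≤ ∑ i ∈ s, gau A X0 τ (B i) := by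
    calc ENNReal.ofReal ((N : ℝ) ^ 2 * (c / (d : ℝ) ^ 3)) = ∑ i ∈ s, ENNReal.ofReal (c / (d : ℝ) ^ 3) := by
          rw [sum_const, nsmul_eq_mul, ← hcard, ENNReal.ofReal_mul (by positivity), ENNReal.ofReal_natCast]
      _ ≤ ∑ i ∈ s, gau A X0 τ (B i) := by
          refine sum_le_sum fun i _ => ?_
          exact hlow A hA0.le hprob _ (wz_u _)
  have h2 : ∑ i ∈ s, ∑ j ∈ s.erase i, gau A X0 τ (B i ∩ B j) ≤
      ENNReal.ofReal ((N : ℝ) ^ 4 * (C / (d : ℝ) ^ 6)) := by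
    have h3 : ∀ i ∈ s, ∑ j ∈ s.erase i, gau A X0 τ (B i ∩ B j) ≤ (N : ENNReal) ^ 2 * ENNReal.ofReal (C / (d : ℝ) ^ 6) := by
      intro i hi
      have h4 : ∀ j ∈ s.erase i, gau A X0 τ (B i ∩ B j) ≤ ENNReal.ofReal (C / (d : ℝ) ^ 6) := by
        intro j hj
        have hji : j ≠ i := (mem_erase.1 hj).1
        have hjs := (mem_erase.1 hj).2
        have h10 := gz_wd (by omega : 1 ≤ d) hN1 (hmem i hi) (hmem j hjs) hji.symm
        rcases le_total (‖wd (wz (gz d i)) (wz (gz d j))‖) (ε / Real.sqrt d) with h5 | h5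
        · have h6 : B i ∩ B j = ∅ := by
            ext X
            simp only [Set.mem_inter_iff, Set.mem_empty_iff_false, iff_false, not_and]
            intro hXi
            exact hdis _ _ (wz_u _) (wz_u _) h10 h5 X hXi
          rw [h6, measure_empty]
          exact bot_le
        · exact hpair A hA0.le hprob.le _ _ (wz_u _) (wz_u _) h5
      calc ∑ j ∈ s.erase i, gau A X0 τ (B i ∩ B j) ≤ ∑ j ∈ s.erase i, ENNReal.ofReal (C / (d : ℝ) ^ 6) :=
            sum_le_sum h4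
        _ ≤ ∑ j ∈ s, ENNReal.ofReal (C / (d : ℝ) ^ 6) := sum_le_sum_of_subset (erase_subset _ _)
        _ = (N : ENNReal) ^ 2 * ENNReal.ofReal (C / (d : ℝ) ^ 6) := by
            rw [sum_const, nsmul_eq_mul, hs, card_product, card_range]
            push_cast
            ring
    calc ∑ i ∈ s, ∑ j ∈ s.erase i, gau A X0 τ (B i ∩ B j)
        ≤ ∑ i ∈ s, (N : ENNReal) ^ 2 * ENNReal.ofReal (C / (d : ℝ) ^ 6) := sum_le_sum h3
      _ = (N : ENNReal) ^ 4 * ENNReal.ofReal (C / (d : ℝ) ^ 6) := by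
          rw [sum_const, nsmul_eq_mul, hs, card_product, card_range]
          push_cast
          ring
      _ = ENNReal.ofReal ((N : ℝ) ^ 4 * (C / (d : ℝ) ^ 6)) := by
          rw [ENNReal.ofReal_mul (by positivity), ENNReal.ofReal_pow (Nat.cast_nonneg N), ENNReal.ofReal_natCast]
  have h3 : ENNReal.ofReal (c / 8192 / d) + ENNReal.ofReal ((N : ℝ) ^ 4 * (C / (d : ℝ) ^ 6)) ≤
      gau A X0 τ (⋃ i ∈ s, B i) + ENNReal.ofReal ((N : ℝ) ^ 4 * (C / (d : ℝ) ^ 6)) := by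
    refine le_trans ?_ (h1.trans (hbon.trans (by gcongr)))
    rw [← ENNReal.ofReal_add (by positivity) (by positivity)]
    apply ENNReal.ofReal_le_ofReal
    have e1 : (N : ℝ) ^ 4 * (C / (d : ℝ) ^ 6) ≤ c / 8192 / d := by
      have e2 : (N : ℝ) ≤ d / 32 := by linarith
      calc (N : ℝ) ^ 4 * (C / (d : ℝ) ^ 6) ≤ (d / 32) ^ 4 * (C / (d : ℝ) ^ 6) := by gcongr
        _ = C / (1048576 * (d : ℝ) ^ 2) := by
            field_simp
            norm_num
            ring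
        _ ≤ c / 8192 / d := by
            rw [div_le_iff₀ (by positivity)] at hd4
            rw [div_div, div_le_div_iff₀ (by positivity) (by positivity)]
            nlinarith
    have e3 : c / 4096 / d ≤ (N : ℝ) ^ 2 * (c / (d : ℝ) ^ 3) := by
      have e2 : (d : ℝ) / 64 ≤ N := by linarith
      calc c / 4096 / d = (d / 64) ^ 2 * (c / (d : ℝ) ^ 3) := by
            field_simp
            norm_num
        _ ≤ (N : ℝ) ^ 2 * (c / (d : ℝ) ^ 3) := by gcongr
    have e4 : c / 4096 / d = c / 8192 / d + c / 8192 / d := by ring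
    linarith
  have h4 : ENNReal.ofReal (c / 8192 / d) ≤ gau A X0 τ (⋃ i ∈ s, B i) :=
    (ENNReal.add_le_add_iff_right ENNReal.ofReal_ne_top).1 h3
  refine h4.trans ?_
  rw [← hlaw, Measure.map_apply hXm (Finset.measurableSet_biUnion s fun i _ => av_meas c0 e _)]
  refine measure_mono ?_
  intro ξ hξ
  simp only [Set.mem_preimage, Set.mem_iUnion] at hξ
  obtain ⟨i, hi, hX⟩ := hξ
  have h5 := gz_le (by omega : 1 ≤ d) hN1 (hmem i hi)
  exact hlat (gz d i) (by nlinarith [norm_nonneg (gz d i)]) _ hX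

theorem count_core (c0 : ℂ) {e : ℝ} (he : 0 < e) (he1 : e ≤ 1 / 768) (L : ∀ d : ℕ, CV d → Prop)
    (hdet : ∃ d0 : ℕ, ∀ d ≥ d0, ∀ z : ℂ, ‖z‖ ≤ 1 → ∀ X : CV d, AV c0 e (wz z) X → L d X) :
    ∃ C : ℝ, 0 < C ∧ ∀ (d : ℕ) (τ : ℝ), 0 < τ → τ ≤ 1 → C / τ ^ 2 ≤ Real.log d → ∀ X0 : CV d, Ctr X0 →
      ENNReal.ofReal (Real.exp (-(C / τ ^ 2)) / d) ≤ gE d {ξ | L d (XG X0 τ ξ)} := by
  obtain ⟨a, b, d3, ha, hb, hlow⟩ := av_low c0 he he1
  obtain ⟨ε, hε, d1, hdis⟩ := av_dis c0 he he1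
  obtain ⟨C2, hC2, hpair⟩ := av_pair c0 he (he1.trans (by norm_num)) ε hε
  obtain ⟨d2, hlat⟩ := hdet
  obtain ⟨M, hM⟩ : ∃ M : ℝ, M = 64 + d1 + d2 + d3 + 8192 / a + C2 / (128 * a) := ⟨_, rfl⟩
  have hM1 : (64 : ℝ) ≤ M := by
    have : 0 ≤ 8192 / a := by positivity
    have : 0 ≤ C2 / (128 * a) := by positivity
    have : (0 : ℝ) ≤ d1 := Nat.cast_nonneg _
    have : (0 : ℝ) ≤ d2 := Nat.cast_nonneg _
    have : (0 : ℝ) ≤ d3 := Nat.cast_nonneg _
    linarith
  have hMe : M ≤ Real.exp M := by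
    have := Real.add_one_le_exp M
    linarith
  obtain ⟨C, hC⟩ : ∃ C : ℝ, C = M + b + 7 := ⟨_, rfl⟩
  refine ⟨C, by linarith, fun d τ hτ hτ1 hd X0 hX0 => ?_⟩
  have hτ2 : 0 < τ ^ 2 := by positivity
  have hx1 : 1 ≤ 1 / τ ^ 2 := by
    rw [le_div_iff₀ hτ2]
    nlinarith
  obtain ⟨x, hx⟩ : ∃ x : ℝ, x = 1 / τ ^ 2 := ⟨_, rfl⟩
  rw [← hx] at hx1
  have hCx : C / τ ^ 2 = C * x := by rw [hx]; ring
  have hbx : b / τ ^ 2 = b * x := by rw [hx]; ring
  rw [hCx] at hd ⊢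
  have hM0 : 0 ≤ M := by linarith
  have hCp : 0 < C * x := by
    have : 0 < C := by linarith
    positivity
  have hdpos : (0 : ℝ) < d := by
    rcases Nat.eq_zero_or_pos d with h | h
    · exfalso
      rw [h] at hd
      simp at hd
      linarith
    · exact_mod_cast h
  have hdE : Real.exp (C * x) ≤ d := by
    rw [← Real.exp_log hdpos]
    exact Real.exp_le_exp.2 hd
  have hdM : M ≤ d := by
    refine hMe.trans (le_trans (Real.exp_le_exp.2 ?_) hdE)
    nlinarith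
  have hd64 : 64 ≤ d := by
    have : (64 : ℝ) ≤ d := hM1.trans hdM
    exact_mod_cast this
  have hpa : 0 ≤ 8192 / a := by positivity
  have hpc : 0 ≤ C2 / (128 * a) := by positivity
  have hp1 : (0 : ℝ) ≤ d1 := Nat.cast_nonneg _
  have hp2 : (0 : ℝ) ≤ d2 := Nat.cast_nonneg _
  have hp3 : (0 : ℝ) ≤ d3 := Nat.cast_nonneg _
  have hdd1 : d1 ≤ d := by
    have : (d1 : ℝ) ≤ d := le_trans (by linarith) hdM
    exact_mod_cast this
  have hdd2 : d2 ≤ d := by
    have : (d2 : ℝ) ≤ d := le_trans (by linarith) hdM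
    exact_mod_cast this
  have hdd3 : d3 ≤ d := by
    have : (d3 : ℝ) ≤ d := le_trans (by linarith) hdM
    exact_mod_cast this
  have hMx : M ≤ Real.exp (M * x) := by
    refine hMe.trans (Real.exp_le_exp.2 ?_)
    nlinarith
  have h7 : (1 / τ ^ 2) ^ 7 ≤ Real.exp (7 * x) := by
    rw [← hx]
    have h1 : x ≤ Real.exp x := by
      have := Real.add_one_le_exp x
      linarith
    have h2 : Real.exp (7 * x) = Real.exp x ^ 7 := by
      rw [← Real.exp_nat_mul]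
      norm_num
    rw [h2]
    gcongr
  have hcc : 0 < a * Real.exp (-(b * x)) := by positivity
  have hone := lower_one c0 e (d := d) (L d) (τ := τ) (c := a * Real.exp (-(b * x))) (C := C2 / τ ^ 14) (ε := ε) hτ hcc
    (by positivity) hd64 ?_ (X0 := X0) (fun A hA0 h1 w hw => ?_) (fun A hA0 h1 w w' hw hw' h2 => ?_)
    (hlat d hdd2) (hdis d hdd1)
  · refine le_trans (ENNReal.ofReal_le_ofReal ?_) hone
    refine div_le_div_of_nonneg_right ?_ hdpos.le
    have h1 : Real.exp (-(C * x)) = Real.exp (-(b * x)) * Real.exp (-(M * x)) * Real.exp (-(7 * x)) := by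
      rw [← Real.exp_add, ← Real.exp_add, hC]
      congr 1
      ring
    have h2 : Real.exp (-(7 * x)) ≤ 1 := Real.exp_le_one_iff.2 (by linarith)
    have h3 : Real.exp (-(M * x)) ≤ a / 8192 := by
      rw [Real.exp_neg]
      have h4 : 8192 / a ≤ Real.exp (M * x) := le_trans (by linarith) hMx
      have h5 : a / 8192 = (8192 / a)⁻¹ := by rw [inv_div]
      rw [h5]
      exact inv_anti₀ (by positivity) h4
    rw [h1]
    calc Real.exp (-(b * x)) * Real.exp (-(M * x)) * Real.exp (-(7 * x))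
        ≤ Real.exp (-(b * x)) * (a / 8192) * 1 := by gcongr
      _ = a * Real.exp (-(b * x)) / 8192 := by ring
  · -- the size of `d`
    have h1 : C2 / τ ^ 14 / (128 * (a * Real.exp (-(b * x)))) =
        C2 / (128 * a) * (1 / τ ^ 2) ^ 7 * Real.exp (b * x) := by
      rw [Real.exp_neg]
      field_simp
    rw [h1]
    refine le_trans ?_ hdE
    have h2 : C2 / (128 * a) ≤ Real.exp (M * x) := le_trans (by linarith) hMx
    calc C2 / (128 * a) * (1 / τ ^ 2) ^ 7 * Real.exp (b * x)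
        ≤ Real.exp (M * x) * Real.exp (7 * x) * Real.exp (b * x) := by gcongr
      _ = Real.exp (C * x) := by
          rw [← Real.exp_add, ← Real.exp_add, hC]
          congr 1
          ring
  · have h3 := hlow τ hτ hτ1 d hdd3 A X0 hA0 hX0 h1 w hw
    rw [hbx] at h3
    exact h3
  · have h3 := hpair τ hτ d (by omega) A X0 hA0 h1 w w' hw hw' h2
    rwa [div_div]

theorem count (c0 : ℂ) {e : ℝ} (he : 0 < e) (he1 : e ≤ 1 / 768) (L : ∀ d : ℕ, CV d → Prop)
    (hdet : ∃ d0 : ℕ, ∀ d ≥ d0, ∀ z : ℂ, ‖z‖ ≤ 1 → ∀ X : CV d, AV c0 e (wz z) X → L d X)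
    (hsm : ∀ (d : ℕ) (t : ℂ), t ≠ 0 → ∀ X : CV d, L d X → L d (t • X)) :
    ∃ C : ℝ, 0 < C ∧ ∀ (d : ℕ) (τ : ℝ), 0 < τ → C * (1 + 1 / τ ^ 2) ≤ Real.log d → ∀ X0 : CV d, Ctr X0 →
      ENNReal.ofReal (Real.exp (-(C * (1 + 1 / τ ^ 2))) / d) ≤ gE d {ξ | L d (XG X0 τ ξ)} := by
  obtain ⟨C, hC, h⟩ := count_core c0 he he1 L hdet
  refine ⟨C, hC, fun d τ hτ hd X0 hX0 => ?_⟩
  have hτ2 : 0 < 1 / τ ^ 2 := by positivity
  rcases le_total τ 1 with h1 | h1
  · have h2 : C / τ ^ 2 ≤ C * (1 + 1 / τ ^ 2) := by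
      rw [mul_add, mul_one, mul_one_div]
      linarith
    refine le_trans (ENNReal.ofReal_le_ofReal ?_) (h d τ hτ h1 (h2.trans hd) X0 hX0)
    refine div_le_div_of_nonneg_right ?_ (Nat.cast_nonneg d)
    exact Real.exp_le_exp.2 (by linarith)
  · have h2 : C ≤ C * (1 + 1 / τ ^ 2) := by nlinarith
    have hτc : ((τ : ℝ) : ℂ) ≠ 0 := by exact_mod_cast hτ.ne'
    have h3 := h d 1 one_pos le_rfl (by rw [one_pow, div_one]; exact h2.trans hd) (((τ : ℂ)⁻¹) • X0)
      (ctr_smul (by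
        rw [norm_inv, Complex.norm_real, Real.norm_eq_abs, abs_of_pos hτ]
        exact inv_le_one_of_one_le₀ h1) hX0)
    refine le_trans (ENNReal.ofReal_le_ofReal ?_) (h3.trans (measure_mono ?_))
    · refine div_le_div_of_nonneg_right ?_ (Nat.cast_nonneg d)
      refine Real.exp_le_exp.2 ?_
      rw [one_pow, div_one]
      linarith
    · intro ξ hξ
      have h4 : XG X0 τ ξ = (τ : ℂ) • XG ((τ : ℂ)⁻¹ • X0) 1 ξ := by
        unfold XG
        rw [smul_add, smul_smul, mul_inv_cancel₀ hτc, one_smul, Complex.ofReal_one, one_smul]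
      show L d (XG X0 τ ξ)
      rw [h4]
      exact hsm d (τ : ℂ) hτc _ hξ

end Pool.Agent.H84.BQ
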