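import Pool.Agent.H84.BQ.Non
import Pool.Agent.H84.BQ.Cnt

/-!
BARRIER in measure: the theorem.
-/

set_option autoImplicit false

open Finset MeasureTheory

namespace Pool.Agent.H84.BQ

open Pool.H70.SF Pool.Agent.H73.ES Pool.Agent.H41.RF Pool.Agent.H91.LB

/-- if `z ^ 2 + c0` is not a limit of hyperbolic `z ^ 2 + c`, then for all centres and all sizes of the noise the random map of degree `d` is
not a limit of hyperbolic maps of degree `d` with probability at least `exp (- C (1 + 1 / τ ^ 2)) / d` -/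
theorem lower_non {c0 : ℂ} (h : ¬ LimC c0) :
    ∃ C : ℝ, 0 < C ∧ ∀ (d : ℕ) (τ : ℝ), 0 < τ → C * (1 + 1 / τ ^ 2) ≤ Real.log d → ∀ X0 : CV d, Ctr X0 →
      ENNReal.ofReal (Real.exp (-(C * (1 + 1 / τ ^ 2))) / d) ≤ gE d {ξ | NL d (XG X0 τ ξ)} := by
  obtain ⟨e, he, he1, hdet⟩ := av_non h
  exact count c0 he he1 NL hdet (fun d t ht X hX => nl_smul d t ht X hX)

end Pool.Agent.H84.BQ
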