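import Pool.Agent.H84.BQ.Def
import Pool.Agent.H91.LB.Frm

/-!
[H84 BQ CLO]  BARRIER in measure: on the event the scaled map is close to `s ^ 2 + c0`; the open form of the event is open.

`av_close`. Coefficients: `(nS X w).coeff 0 = d * wd w (FF X w)` (`nP_coeff`, `jv_zero`), within `e` of `2 c0`; `(nS X w).coeff 1 = wd w (jv X w 1)`, at most `e`; `(nS X w).coeff 2 = wd w (jv X w 2) / d`, within `e` of `2`; `‖(nS X w).coeff k‖ ≤ 10 * (2 √d)^k * d^(1-k) = 10 d (2 / √d)^k` for all `k` (`nS_coeff`, `bd`);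
`(hS X w).coeff 0` within `e` of `2`, `‖(hS X w).coeff k‖ ≤ 10 (2 / √d)^k` (`hS_coeff`). With `R ≥ 1` and `q = 2 R / √d ≤ 1 / 2` for `‖s‖ ≤ R`: `‖nS(s) - (2 c0 + 2 s^2)‖ ≤ e (1 + R + R^2) + 10 d ∑_{k ≥ 3} q^k ≤ e (1 + R + R^2) + 20 d q^3 = e (..) + 160 R^3 / √d`,
`‖hS(s) - 2‖ ≤ e + 20 q = e + 40 R / √d`. (Tails: `tayl` in H91/LB/Ndj.lean, or geometric series.) So for `e` small and `d ≥ d0` both are as small as we want, `hS(s) ≠ 0` and `nS / hS` is within `η` of `(2 c0 + 2 s^2) / 2`. (`‖s‖ ≤ R` with `R < 0`: nothing to prove; replace `R` by `max R 1`.)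
Degree: `(nS X w).coeff 2 ≠ 0` as it is within `2 e < 2` of `2` (the statement has `AVo c0 (2 * e)`).
`av_o`: for `d ≥ 1`, `AV c0 e w X` gives `AVo c0 (2 * e) w X` (`9 * _ < 10 * _` as `√d > 0`, for `d ≥ 1`). `avo_open`: for `k > d` the jets vanish (`jt_big` in H73/LB/Par.lean), so `bd` for these `k` holds for all `X`; the rest is a finite intersection of open conditions (continuity: `jv_cont`, `ff_cont` in H73/ES/Meas.lean).
-/

set_option autoImplicit false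

open Polynomial Filter Topology

namespace Pool.Agent.H84.BQ

open Pool.H70.SF Pool.Agent.H73.ES Pool.Agent.H41.RF Pool.Agent.H91.LB

theorem av_o {d : ℕ} (hd : 1 ≤ d) {c0 : ℂ} {e : ℝ} (he : 0 < e) {w : ℂ × ℂ} {X : CV d} (h : AV c0 e w X) :
    AVo c0 (2 * e) w X := by
  have hD : (0 : ℝ) < d := by exact_mod_cast hd
  have hs : 0 < Real.sqrt d := Real.sqrt_pos.2 hD
  refine ⟨lt_of_le_of_lt h.p0 ?_, lt_of_le_of_lt h.p1 (by linarith), lt_of_le_of_lt h.p2 ?_,
    lt_of_le_of_lt h.q0 (by linarith), fun k => ?_⟩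
  · exact div_lt_div_of_pos_right (by linarith) hD
  · exact mul_lt_mul_of_pos_right (by linarith) hD
  · have h1 : (0 : ℝ) < (2 * Real.sqrt d) ^ k := by positivity
    exact ⟨lt_of_le_of_lt (h.bd k).1 (by linarith), lt_of_le_of_lt (h.bd k).2 (by linarith)⟩

private theorem jv_big {d k : ℕ} (hk : d < k) (X : CV d) (w : ℂ × ℂ) : jv X w k = (0, 0) := by
  unfold jv jt
  rw [Polynomial.coeff_eq_zero_of_natDegree_lt (lt_of_le_of_lt (rs_deg X.1 w) hk),
    Polynomial.coeff_eq_zero_of_natDegree_lt (lt_of_le_of_lt (rs_deg X.2 w) hk)]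

private theorem wd_cont {d : ℕ} (w : ℂ × ℂ) {f : CV d → ℂ × ℂ} (hf : Continuous f) :
    Continuous fun X => wd w (f X) := by
  unfold wd
  fun_prop

private theorem hm_cont {d : ℕ} (w : ℂ × ℂ) {f : CV d → ℂ × ℂ} (hf : Continuous f) :
    Continuous fun X => hm (f X) w := by
  unfold hm
  fun_prop

theorem avo_open {d : ℕ} (hd : 1 ≤ d) (c0 : ℂ) (e : ℝ) (w : ℂ × ℂ) : IsOpen {X : CV d | AVo c0 e w X} := by
  have hD : (0 : ℝ) < d := by exact_mod_cast hd
  have hs : 0 < Real.sqrt d := Real.sqrt_pos.2 hD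
  have hff : Continuous fun X : CV d => FF X w := ff_cont w
  have hjv : ∀ k, Continuous fun X : CV d => jv X w k := fun k => jv_cont w k
  have hset : {X : CV d | AVo c0 e w X} =
      {X : CV d | ‖wd w (FF X w) - 2 * c0 / (d : ℂ)‖ < e / d} ∩
      ({X : CV d | ‖wd w (jv X w 1)‖ < e} ∩
      ({X : CV d | ‖wd w (jv X w 2) - 2 * (d : ℂ)‖ < e * d} ∩
      ({X : CV d | ‖hm (FF X w) w - 2‖ < e} ∩
      ⋂ k ∈ Finset.range (d + 1), ({X : CV d | ‖wd w (jv X w k)‖ < 10 * (2 * Real.sqrt d) ^ k} ∩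
        {X : CV d | ‖hm (jv X w k) w‖ < 10 * (2 * Real.sqrt d) ^ k})))) := by
    ext X
    constructor
    · intro h
      refine ⟨h.p0, h.p1, h.p2, h.q0, ?_⟩
      rw [Set.mem_iInter₂]
      intro k _
      exact ⟨(h.bd k).1, (h.bd k).2⟩
    · rintro ⟨h1, h2, h3, h4, h5⟩
      rw [Set.mem_iInter₂] at h5
      refine ⟨h1, h2, h3, h4, fun k => ?_⟩
      by_cases hk : k < d + 1
      · exact ⟨(h5 k (Finset.mem_range.2 hk)).1, (h5 k (Finset.mem_range.2 hk)).2⟩
      · have h6 : (0 : ℝ) < (2 * Real.sqrt d) ^ k := by positivity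
        rw [jv_big (by omega) X w]
        unfold wd hm
        simp only [mul_zero, sub_zero, zero_mul, add_zero, norm_zero]
        constructor <;> linarith
  rw [hset]
  refine (isOpen_lt (((wd_cont w hff).sub continuous_const).norm) continuous_const).inter
    ((isOpen_lt ((wd_cont w (hjv 1)).norm) continuous_const).inter
    ((isOpen_lt (((wd_cont w (hjv 2)).sub continuous_const).norm) continuous_const).inter
    ((isOpen_lt (((hm_cont w hff).sub continuous_const).norm) continuous_const).inter ?_)))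
  refine isOpen_biInter_finset fun k _ => ?_
  exact (isOpen_lt ((wd_cont w (hjv k)).norm) continuous_const).inter
    (isOpen_lt ((hm_cont w (hjv k)).norm) continuous_const)

/-- Taylor remainder of a polynomial with geometric coefficients -/
private theorem tayl' (p : Polynomial ℂ) {A B : ℝ} (hA : 0 ≤ A) (hB : 0 ≤ B) (m : ℕ)
    (h : ∀ k, m ≤ k → ‖p.coeff k‖ ≤ A * B ^ k) {t : ℂ} (ht : B * ‖t‖ ≤ 1 / 2) :
    ‖p.eval t - ∑ k ∈ Finset.range m, p.coeff k * t ^ k‖ ≤ 2 * A * (B * ‖t‖) ^ m := by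
  set r : ℝ := B * ‖t‖ with hr
  have hr0 : 0 ≤ r := by positivity
  have h0 : p.eval t = ∑ k ∈ Finset.range (m + (p.natDegree + 1)), p.coeff k * t ^ k :=
    p.eval_eq_sum_range' (by omega) t
  have h1 : p.eval t - ∑ k ∈ Finset.range m, p.coeff k * t ^ k =
      ∑ k ∈ Finset.range (p.natDegree + 1), p.coeff (m + k) * t ^ (m + k) := by
    rw [h0, Finset.sum_range_add, add_sub_cancel_left]
  rw [h1]
  have h2 : ∀ n : ℕ, ∑ k ∈ Finset.range n, A * r ^ (m + k) ≤ 2 * A * r ^ m * (1 - (1 / 2) ^ n) := by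
    intro n
    induction n with
    | zero => simp
    | succ n ih =>
      rw [Finset.sum_range_succ]
      have h3 : A * r ^ (m + n) ≤ A * r ^ m * (1 / 2) ^ n := by
        rw [pow_add, ← mul_assoc]
        gcongr
      calc ∑ k ∈ Finset.range n, A * r ^ (m + k) + A * r ^ (m + n)
          ≤ 2 * A * r ^ m * (1 - (1 / 2) ^ n) + A * r ^ m * (1 / 2) ^ n := add_le_add ih h3
        _ = 2 * A * r ^ m * (1 - (1 / 2) ^ (n + 1)) := by ring
  calc ‖∑ k ∈ Finset.range (p.natDegree + 1), p.coeff (m + k) * t ^ (m + k)‖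
      ≤ ∑ k ∈ Finset.range (p.natDegree + 1), A * r ^ (m + k) := by
        refine (norm_sum_le _ _).trans (Finset.sum_le_sum fun k _ => ?_)
        rw [norm_mul, norm_pow, hr, mul_pow, ← mul_assoc]
        gcongr
        exact h (m + k) (by omega)
    _ ≤ 2 * A * r ^ m * (1 - (1 / 2) ^ (p.natDegree + 1)) := h2 _
    _ ≤ 2 * A * r ^ m := by
        have h4 : (0 : ℝ) ≤ (1 / 2) ^ (p.natDegree + 1) := by positivity
        have h5 : 0 ≤ 2 * A * r ^ m := by positivity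
        nlinarith

private theorem av_close_one (c0 : ℂ) {η R : ℝ} (hη : 0 < η) (hR : 1 ≤ R) :
    ∃ e : ℝ, 0 < e ∧ e ≤ 1 / 768 ∧ ∃ d0 : ℕ, ∀ d ≥ d0,
    ∀ (w : ℂ × ℂ) (X : CV d), AVo c0 (2 * e) w X → 2 ≤ (nS X w).natDegree ∧ ∀ s : ℂ, ‖s‖ ≤ R →
      (hS X w).eval s ≠ 0 ∧ ‖(nS X w).eval s / (hS X w).eval s - (s ^ 2 + c0)‖ ≤ η := by
  have hR0 : 0 < R := by linarith
  set L : ℝ := 1 + R ^ 2 + ‖c0‖ with hL
  have hL1 : 1 ≤ L := by
    have := norm_nonneg c0
    have := sq_nonneg R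
    linarith
  have hL0 : 0 < L := by linarith
  set δ : ℝ := min 1 (η / L) with hδ
  have hδ0 : 0 < δ := lt_min one_pos (by positivity)
  have hδ1 : δ ≤ 1 := min_le_left _ _
  have hδη : δ * L ≤ η := by
    have : δ ≤ η / L := min_le_right _ _
    calc δ * L ≤ η / L * L := by gcongr
      _ = η := by field_simp
  have hQ0 : 0 < 4 * (1 + R + R ^ 2) := by positivity
  set e : ℝ := min (1 / 768) (δ / (4 * (1 + R + R ^ 2))) with he
  have he0 : 0 < e := lt_min (by norm_num) (by positivity)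
  have he1 : e ≤ 1 / 768 := min_le_left _ _
  have he2 : 2 * e * (1 + R + R ^ 2) ≤ δ / 2 := by
    have h1 : e ≤ δ / (4 * (1 + R + R ^ 2)) := min_le_right _ _
    calc 2 * e * (1 + R + R ^ 2) ≤ 2 * (δ / (4 * (1 + R + R ^ 2))) * (1 + R + R ^ 2) := by gcongr
      _ = δ / 2 := by field_simp; ring
  have he3 : 2 * e ≤ δ / 2 := by
    have h1 : 2 * e * 1 ≤ 2 * e * (1 + R + R ^ 2) := by
      have : (1 : ℝ) ≤ 1 + R + R ^ 2 := by nlinarith
      gcongr
    linarith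
  set M : ℝ := 320 * R ^ 3 / δ + 80 * R / δ + 4 * R + 1 with hM
  have hM1 : 1 ≤ M := by
    have h1 : 0 ≤ 320 * R ^ 3 / δ := by positivity
    have h2 : 0 ≤ 80 * R / δ := by positivity
    linarith
  refine ⟨e, he0, he1, ⌈M ^ 2⌉₊, fun d hd w X H => ?_⟩
  have hdM : M ^ 2 ≤ d := (Nat.le_ceil _).trans (by exact_mod_cast hd)
  have hD1 : (1 : ℝ) ≤ d := le_trans (by nlinarith) hdM
  have hD0 : (0 : ℝ) < d := by linarith
  have hsM : M ≤ Real.sqrt d := Real.le_sqrt_of_sq_le hdM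
  have hs0 : 0 < Real.sqrt d := by linarith
  have hss : Real.sqrt d * Real.sqrt d = d := Real.mul_self_sqrt hD0.le
  have hdne : (d : ℂ) ≠ 0 := by exact_mod_cast hD0.ne'
  have hb1 : 320 * R ^ 3 / δ ≤ Real.sqrt d := by
    have h2 : 0 ≤ 80 * R / δ := by positivity
    linarith
  have hb2 : 80 * R / δ ≤ Real.sqrt d := by
    have h2 : 0 ≤ 320 * R ^ 3 / δ := by positivity
    linarith
  have hb3 : 4 * R ≤ Real.sqrt d := by
    have h1 : 0 ≤ 320 * R ^ 3 / δ := by positivity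
    have h2 : 0 ≤ 80 * R / δ := by positivity
    linarith
  have hc1 : 160 * R ^ 3 / Real.sqrt d ≤ δ / 2 := by
    rw [div_le_iff₀ hδ0] at hb1
    rw [div_le_iff₀ hs0]
    linarith
  have hc2 : 40 * R / Real.sqrt d ≤ δ / 2 := by
    rw [div_le_iff₀ hδ0] at hb2
    rw [div_le_iff₀ hs0]
    linarith
  have h0 : jv X w 0 = FF X w := jv_zero X w
  have hB0 : (0 : ℝ) ≤ 2 * Real.sqrt d := by positivity
  constructor
  · apply le_natDegree_of_ne_zero
    rw [← norm_pos_iff, nS_coeff]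
    have h1 := H.p2
    have h2 : ‖(2 : ℂ) * d‖ = 2 * d := by
      rw [norm_mul, Complex.norm_natCast]
      norm_num
    have h3 : ‖(2 : ℂ) * d‖ ≤ ‖wd w (jv X w 2)‖ + ‖wd w (jv X w 2) - 2 * (d : ℂ)‖ := by
      have h4 : (2 : ℂ) * d = wd w (jv X w 2) - (wd w (jv X w 2) - 2 * (d : ℂ)) := by ring
      calc ‖(2 : ℂ) * d‖ = ‖wd w (jv X w 2) - (wd w (jv X w 2) - 2 * (d : ℂ))‖ := by rw [← h4]
        _ ≤ _ := norm_sub_le _ _
    have h5 : 2 * e * d ≤ d := by nlinarith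
    have h6 : 0 < ‖wd w (jv X w 2)‖ := by linarith
    positivity
  · intro s hs
    set t : ℂ := (d : ℂ)⁻¹ * s with ht
    have hBt : 2 * Real.sqrt d * ‖t‖ = 2 * ‖s‖ / Real.sqrt d := by
      rw [ht, norm_mul, norm_inv, Complex.norm_natCast, eq_div_iff hs0.ne']
      calc 2 * Real.sqrt d * ((d : ℝ)⁻¹ * ‖s‖) * Real.sqrt d =
          2 * ‖s‖ * ((Real.sqrt d * Real.sqrt d) * (d : ℝ)⁻¹) := by ring
        _ = 2 * ‖s‖ := by rw [hss, mul_inv_cancel₀ hD0.ne', mul_one]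
    have hBt1 : 2 * Real.sqrt d * ‖t‖ ≤ 2 * R / Real.sqrt d := by
      rw [hBt]
      gcongr
    have hBt2 : 2 * Real.sqrt d * ‖t‖ ≤ 1 / 2 := by
      refine hBt1.trans ?_
      rw [div_le_iff₀ hs0]
      linarith
    have T1 := tayl' (nP X w) (A := 10) (by norm_num) hB0 3 (fun k _ => by
      rw [nP_coeff]
      exact (H.bd k).1.le) hBt2
    have T2 := tayl' (hP X w) (A := 10) (by norm_num) hB0 1 (fun k _ => by
      rw [hP_coeff]
      exact (H.bd k).2.le) hBt2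
    rw [Finset.sum_range_succ, Finset.sum_range_succ, Finset.sum_range_one, nP_coeff, nP_coeff,
      nP_coeff, h0] at T1
    rw [Finset.sum_range_one, hP_coeff, h0] at T2
    have eN : (nS X w).eval s = d * (nP X w).eval t := by
      unfold nS
      rw [eval_mul, eval_C, eval_comp, eval_mul, eval_C, eval_X]
    have eH : (hS X w).eval s = (hP X w).eval t := by
      unfold hS
      rw [eval_comp, eval_mul, eval_C, eval_X]
    set c_0 : ℂ := wd w (FF X w) with hc_0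
    set c_1 : ℂ := wd w (jv X w 1) with hc_1
    set c_2 : ℂ := wd w (jv X w 2) with hc_2
    have hN : ‖(nS X w).eval s - (2 * c0 + 2 * s ^ 2)‖ ≤ δ := by
      have k1 : (nS X w).eval s - (2 * c0 + 2 * s ^ 2) =
          d * ((nP X w).eval t - (c_0 * t ^ 0 + c_1 * t ^ 1 + c_2 * t ^ 2)) +
          (d * (c_0 - 2 * c0 / (d : ℂ)) + c_1 * s + (c_2 - 2 * (d : ℂ)) * ((d : ℂ)⁻¹ * s ^ 2)) := by
        rw [eN, ht]
        field_simp
        ring
      have k2 : ‖(d : ℂ) * ((nP X w).eval t - (c_0 * t ^ 0 + c_1 * t ^ 1 + c_2 * t ^ 2))‖ ≤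
          160 * R ^ 3 / Real.sqrt d := by
        rw [norm_mul, Complex.norm_natCast]
        calc (d : ℝ) * ‖(nP X w).eval t - (c_0 * t ^ 0 + c_1 * t ^ 1 + c_2 * t ^ 2)‖
            ≤ d * (2 * 10 * (2 * R / Real.sqrt d) ^ 3) := by
              have h7 : (2 * Real.sqrt d * ‖t‖) ^ 3 ≤ (2 * R / Real.sqrt d) ^ 3 := by gcongr
              have h8 := T1.trans (mul_le_mul_of_nonneg_left h7 (by norm_num : (0 : ℝ) ≤ 2 * 10))
              gcongr
          _ = 160 * R ^ 3 / Real.sqrt d * (d / (Real.sqrt d * Real.sqrt d)) := by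
              field_simp
              ring
          _ = 160 * R ^ 3 / Real.sqrt d := by rw [hss, div_self hD0.ne', mul_one]
      have k3 : ‖(d : ℂ) * (c_0 - 2 * c0 / (d : ℂ))‖ ≤ 2 * e := by
        rw [norm_mul, Complex.norm_natCast]
        calc (d : ℝ) * ‖c_0 - 2 * c0 / (d : ℂ)‖ ≤ d * (2 * e / d) := by
              gcongr
              exact H.p0.le
          _ = 2 * e := by field_simp
      have k4 : ‖c_1 * s‖ ≤ 2 * e * R := by
        rw [norm_mul]
        have := H.p1.le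
        gcongr
      have k5 : ‖(c_2 - 2 * (d : ℂ)) * ((d : ℂ)⁻¹ * s ^ 2)‖ ≤ 2 * e * R ^ 2 := by
        rw [norm_mul, norm_mul, norm_inv, norm_pow, Complex.norm_natCast]
        calc ‖c_2 - 2 * (d : ℂ)‖ * ((d : ℝ)⁻¹ * ‖s‖ ^ 2) ≤ (2 * e * d) * ((d : ℝ)⁻¹ * R ^ 2) := by
              have := H.p2.le
              gcongr
          _ = 2 * e * R ^ 2 := by field_simp
      rw [k1]
      calc _ ≤ ‖(d : ℂ) * ((nP X w).eval t - (c_0 * t ^ 0 + c_1 * t ^ 1 + c_2 * t ^ 2))‖ +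
          (‖(d : ℂ) * (c_0 - 2 * c0 / (d : ℂ))‖ + ‖c_1 * s‖ +
            ‖(c_2 - 2 * (d : ℂ)) * ((d : ℂ)⁻¹ * s ^ 2)‖) := by
            refine (norm_add_le _ _).trans (add_le_add le_rfl ?_)
            exact (norm_add_le _ _).trans (add_le_add (norm_add_le _ _) le_rfl)
        _ ≤ 160 * R ^ 3 / Real.sqrt d + (2 * e + 2 * e * R + 2 * e * R ^ 2) := by linarith
        _ = 160 * R ^ 3 / Real.sqrt d + 2 * e * (1 + R + R ^ 2) := by ring
        _ ≤ δ := by linarith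
    have hH : ‖(hS X w).eval s - 2‖ ≤ δ := by
      have k1 : (hS X w).eval s - 2 = ((hP X w).eval t - hm (FF X w) w * t ^ 0) + (hm (FF X w) w - 2) := by
        rw [eH]
        ring
      have k2 : ‖(hP X w).eval t - hm (FF X w) w * t ^ 0‖ ≤ 40 * R / Real.sqrt d := by
        refine T2.trans ?_
        rw [pow_one]
        calc 2 * 10 * (2 * Real.sqrt d * ‖t‖) ≤ 2 * 10 * (2 * R / Real.sqrt d) := by gcongr
          _ = 40 * R / Real.sqrt d := by ring
      have k3 := H.q0.le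
      rw [k1]
      refine (norm_add_le _ _).trans ?_
      linarith
    have hH1 : 1 ≤ ‖(hS X w).eval s‖ := by
      have h9 : ‖(2 : ℂ)‖ ≤ ‖(hS X w).eval s‖ + ‖(hS X w).eval s - 2‖ := by
        have h4 : (2 : ℂ) = (hS X w).eval s - ((hS X w).eval s - 2) := by ring
        calc ‖(2 : ℂ)‖ = ‖(hS X w).eval s - ((hS X w).eval s - 2)‖ := by rw [← h4]
          _ ≤ _ := norm_sub_le _ _
      have h10 : ‖(2 : ℂ)‖ = 2 := by norm_num
      rw [h10] at h9
      linarith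
    have hHne : (hS X w).eval s ≠ 0 := by
      intro h
      rw [h, norm_zero] at hH1
      linarith
    refine ⟨hHne, ?_⟩
    have k6 : (nS X w).eval s / (hS X w).eval s - (s ^ 2 + c0) =
        (((nS X w).eval s - (2 * c0 + 2 * s ^ 2)) - (s ^ 2 + c0) * ((hS X w).eval s - 2)) /
          (hS X w).eval s := by
      field_simp
      ring
    rw [k6, norm_div]
    refine (div_le_self (norm_nonneg _) hH1).trans ?_
    have k7 : ‖s ^ 2 + c0‖ ≤ R ^ 2 + ‖c0‖ := by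
      refine (norm_add_le _ _).trans ?_
      rw [norm_pow]
      gcongr
    calc _ ≤ ‖(nS X w).eval s - (2 * c0 + 2 * s ^ 2)‖ + ‖(s ^ 2 + c0) * ((hS X w).eval s - 2)‖ :=
          norm_sub_le _ _
      _ ≤ δ + (R ^ 2 + ‖c0‖) * δ := by
          rw [norm_mul]
          gcongr
      _ = δ * L := by rw [hL]; ring
      _ ≤ η := hδη

theorem av_close (c0 : ℂ) {η R : ℝ} (hη : 0 < η) : ∃ e : ℝ, 0 < e ∧ e ≤ 1 / 768 ∧ ∃ d0 : ℕ, ∀ d ≥ d0,
    ∀ (w : ℂ × ℂ) (X : CV d), AVo c0 (2 * e) w X → 2 ≤ (nS X w).natDegree ∧ ∀ s : ℂ, ‖s‖ ≤ R →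
      (hS X w).eval s ≠ 0 ∧ ‖(nS X w).eval s / (hS X w).eval s - (s ^ 2 + c0)‖ ≤ η := by
  obtain ⟨e, he0, he1, d0, h⟩ := av_close_one c0 hη (le_max_right R 1)
  refine ⟨e, he0, he1, d0, fun d hd w X H => ?_⟩
  obtain ⟨h1, h2⟩ := h d hd w X H
  exact ⟨h1, fun s hs => h2 s (hs.trans (le_max_left _ _))⟩

end Pool.Agent.H84.BQ
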