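import Pool.Agent.H91.LB.Def

/-!
BARRIER in measure (MP_8f2e1c_an, part (3) of SharpSmoothedFatou; text: table proofs, row 352, part B3): definitions.

The event `AV c0 e w X`: in the chart `t ↦ w + t w'` at the unit vector `w`, scaled by `1/d`, the random map is close to `s ↦ s^2 + c0`: the
numerator (component orthogonal to `w`) is close to `(2 c0 + 2 s^2) / d`, the denominator is close to `2`.
-/

set_option autoImplicit false

open Finset MeasureTheory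

namespace Pool.Agent.H84.BQ

open Pool.H70.SF Pool.Agent.H73.ES Pool.Agent.H41.RF Pool.Agent.H91.LB

/-- the event at the unit vector `w` -/
structure AV {d : ℕ} (c0 : ℂ) (e : ℝ) (w : ℂ × ℂ) (X : CV d) : Prop where
  p0 : ‖wd w (FF X w) - 2 * c0 / (d : ℂ)‖ ≤ e / d
  p1 : ‖wd w (jv X w 1)‖ ≤ e
  p2 : ‖wd w (jv X w 2) - 2 * (d : ℂ)‖ ≤ e * d
  q0 : ‖hm (FF X w) w - 2‖ ≤ e
  bd : ∀ k, ‖wd w (jv X w k)‖ ≤ 9 * (2 * Real.sqrt d) ^ k ∧ ‖hm (jv X w k) w‖ ≤ 9 * (2 * Real.sqrt d) ^ k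

/-- open form of the event -/
structure AVo {d : ℕ} (c0 : ℂ) (e : ℝ) (w : ℂ × ℂ) (X : CV d) : Prop where
  p0 : ‖wd w (FF X w) - 2 * c0 / (d : ℂ)‖ < e / d
  p1 : ‖wd w (jv X w 1)‖ < e
  p2 : ‖wd w (jv X w 2) - 2 * (d : ℂ)‖ < e * d
  q0 : ‖hm (FF X w) w - 2‖ < e
  bd : ∀ k, ‖wd w (jv X w k)‖ < 10 * (2 * Real.sqrt d) ^ k ∧ ‖hm (jv X w k) w‖ < 10 * (2 * Real.sqrt d) ^ k

end Pool.Agent.H84.BQ
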