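import Pool.Agent.H84.BQ.Def
import Pool.Agent.H73.LB.Typ

/-!
[H84 BQ LOW]  BARRIER in measure: one event has probability `≥ a exp (- b / τ ^ 2) d ^ (-3)`.

An adaptation of `Pool.Agent.H73.LB.aw_lowE` (Pool/Agent/H73/LB/LowE.lean; copy it and change the numbers). `typ` and four applications of `sin_sh` (with general centre `z0` and radius `r`), in the same order:
(true, 0): centre `z0 = 2 c0 / d`, radius `e / d` (`M = 9 + 2 ‖c0‖`); (true, 1): centre `0`, radius `e` (`M = 18 √d`); (true, 2): centre `2 d`, radius `e d` (`M = 38 d`); (false, 0): centre `2`, radius `e` (`M = 11`).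
The factors: with `d ≥ d0 ≥ 2` and `d0 ≥ 2 ‖c0‖ + 2`: `(r / (M + r))^2 ≥ (e / ((10 + 2 ‖c0‖) d))^2`, `≥ (e / (19 √d))^2`, `≥ (e / 39)^2`, `≥ (e / 12)^2`; the exponents are bounded by `b_i / τ^2` with `b_i` depending only on `‖c0‖` (the quantities `(2 (M + r) (‖z0‖ + M + 3 √d^k) + (M + r)^2) / binom(d, k)` are
bounded: `binom(d, 0) = 1`, `binom(d, 1) = d`, `binom(d, 2) ≥ d^2 / 4`). `a` = product of the constants times `1/4`: it may be written as an explicit expression in `e`, `‖c0‖`.
The event `Ev w c4` is contained in `AV c0 e w`: the four updated coordinates give `p0, p1, p2, q0` (`vv_true`, `hm_pp`, `vv_false`, `jv_zero`); `bd`: for the updated coordinates from the centre and radius (`2 ‖c0‖ / d + e / d ≤ 9`, `e ≤ 18 √d`, `2 d + e d ≤ 36 d`, `2 + e ≤ 9`), for the others `cB`.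
-/

set_option autoImplicit false

open Finset MeasureTheory

namespace Pool.Agent.H84.BQ

open Pool.H70.SF Pool.Agent.H73.ES Pool.H26.SF Pool.Agent.H41.RF Pool.Agent.H91.LB Pool.Agent.H73.LB

private theorem upd_closed {c : Bool × ℕ → Set ℂ} (hc : ∀ q, IsClosed (c q)) (q0 : Bool × ℕ)
    (z0 : ℂ) (r : ℝ) : ∀ q, IsClosed (Function.update c q0 (Metric.closedBall z0 r) q) := by
  intro q
  by_cases h : q = q0
  · rw [h, Function.update_self]
    exact Metric.isClosed_closedBall
  · rw [Function.update_of_ne h]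
    exact hc q

private theorem chn {x y z : ℝ} {m m' : ENNReal} (h : ENNReal.ofReal x * m ≤ m') (hy : y ≤ x)
    (hy0 : 0 ≤ y) (hm : ENNReal.ofReal z ≤ m) : ENNReal.ofReal (y * z) ≤ m' := by
  refine le_trans ?_ h
  rw [ENNReal.ofReal_mul hy0]
  exact mul_le_mul' (ENNReal.ofReal_le_ofReal hy) hm

private theorem fac {x y a b τ : ℝ} (hx : 0 ≤ x) (hxy : x ≤ y) (hτ : 0 < τ) (hab : b ≤ a) :
    x ^ 2 * Real.exp (-(a / τ ^ 2)) ≤ y ^ 2 * Real.exp (-(b / τ ^ 2)) := by
  apply mul_le_mul (pow_le_pow_left₀ hx hxy 2) _ (Real.exp_pos _).le (by positivity)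
  apply Real.exp_le_exp.2
  apply neg_le_neg
  exact div_le_div_of_nonneg_right hab (by positivity)

theorem av_low (c0 : ℂ) {e : ℝ} (he : 0 < e) (he1 : e ≤ 1 / 768) :
    ∃ (a b : ℝ) (d0 : ℕ), 0 < a ∧ 0 ≤ b ∧ ∀ τ : ℝ, 0 < τ → τ ≤ 1 → ∀ d : ℕ, d0 ≤ d → ∀ (A : ℝ) (X0 : CV d), 0 ≤ A →
      Ctr X0 → gau A X0 τ Set.univ = 1 → ∀ w, IsU w →
      ENNReal.ofReal (a * Real.exp (-(b / τ ^ 2)) / (d : ℝ) ^ 3) ≤ gau A X0 τ {X | AV c0 e w X} := by
  obtain ⟨N, hN⟩ : ∃ N : ℝ, N = ‖c0‖ := ⟨_, rfl⟩
  have hN0 : 0 ≤ N := by rw [hN]; exact norm_nonneg _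
  obtain ⟨P, hP⟩ : ∃ P : ℝ, P = 10 + 2 * N := ⟨_, rfl⟩
  have hP10 : 10 ≤ P := by rw [hP]; linarith
  obtain ⟨d0, hd0⟩ := exists_nat_ge (2 * N + 2)
  refine ⟨(e / 12) ^ 2 * (e / 39) ^ 2 * (e / 19) ^ 2 * (e / P) ^ 2 * (1 / 4), 21187 + 9 * P ^ 2,
    max 2 d0, by positivity, by positivity, ?_⟩
  intro τ hτ hτ1 d hdm A X0 hA hX0 hg w hw
  have hd : 2 ≤ d := le_trans (le_max_left _ _) hdm
  have hd1 : 1 ≤ d := by omega
  have hdR : (2 : ℝ) ≤ d := by exact_mod_cast hd
  have hdp : (0 : ℝ) < d := by linarith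
  have hdN : 2 * N + 2 ≤ d := by
    have h1 : (d0 : ℝ) ≤ d := by exact_mod_cast le_trans (le_max_right _ _) hdm
    linarith
  obtain ⟨s, hs⟩ : ∃ s, s = Real.sqrt d := ⟨_, rfl⟩
  have hs1 : 1 ≤ s := by
    rw [hs]
    exact Real.one_le_sqrt.2 (by linarith)
  have hss : s ^ 2 = d := by
    rw [hs]
    exact Real.sq_sqrt hdp.le
  obtain ⟨r1, hr1⟩ : ∃ r1 : ℝ, r1 = e / d := ⟨_, rfl⟩
  have hr1p : 0 < r1 := by rw [hr1]; positivity
  have hr11 : r1 ≤ 1 := by
    rw [hr1, div_le_one hdp]
    linarith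
  obtain ⟨z0, hz0⟩ : ∃ z0 : ℂ, z0 = 2 * c0 / (d : ℂ) := ⟨_, rfl⟩
  have hz0n : ‖z0‖ = 2 * N / d := by
    rw [hz0, norm_div, norm_mul, Complex.norm_natCast, hN]
    norm_num
  have hz0l : ‖z0‖ ≤ 2 * N := by
    rw [hz0n, div_le_iff₀ hdp]
    nlinarith
  have hz0s : ‖z0‖ + r1 ≤ 1 := by
    rw [hz0n, hr1, ← add_div, div_le_one hdp]
    linarith
  obtain ⟨c1, hc1⟩ : ∃ c1, c1 = Function.update (cB d) (true, 0) (Metric.closedBall z0 r1) :=
    ⟨_, rfl⟩
  obtain ⟨c2, hc2⟩ : ∃ c2, c2 = Function.update c1 (true, 1)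
    (Metric.closedBall (0 : ℂ) e) := ⟨_, rfl⟩
  obtain ⟨c3, hc3⟩ : ∃ c3, c3 = Function.update c2 (true, 2)
    (Metric.closedBall (2 * (d : ℂ)) (e * d)) := ⟨_, rfl⟩
  obtain ⟨c4, hc4⟩ : ∃ c4, c4 = Function.update c3 (false, 0)
    (Metric.closedBall (2 : ℂ) e) := ⟨_, rfl⟩
  have cl0 : ∀ q, IsClosed (cB d q) := fun q => Metric.isClosed_closedBall
  have cl1 : ∀ q, IsClosed (c1 q) := by rw [hc1]; exact upd_closed cl0 _ _ _
  have cl2 : ∀ q, IsClosed (c2 q) := by rw [hc2]; exact upd_closed cl1 _ _ _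
  have cl3 : ∀ q, IsClosed (c3 q) := by rw [hc3]; exact upd_closed cl2 _ _ _
  have hcBm : ∀ (b : Bool) (k : ℕ) (z : ℂ), z ∈ cB d (b, k) ↔ ‖z‖ ≤ 9 * (2 * s) ^ k := by
    intro b k z
    unfold cB
    rw [Metric.mem_closedBall, dist_zero_right, ← hs]
  have n2d : ‖2 * (d : ℂ)‖ = 2 * d := by
    rw [norm_mul, Complex.norm_natCast]
    norm_num
  have n2 : ‖(2 : ℂ)‖ = 2 := by norm_num
  -- the four shifts
  have t0 := typ hd1 hA hX0 hτ hτ1 hg hw
  have t1 := chn (y := (e / (P * d)) ^ 2 * Real.exp (-(9 * P ^ 2 / τ ^ 2)))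
    (sin_sh hd1 (Nat.zero_le d) hA hX0 hτ hw true cl0 z0 (M := 9 + 2 * N) (r := r1)
      (by positivity) hr1p
      (fun z hz => by
        have h1 := (hcBm true 0 z).1 hz
        rw [pow_zero, mul_one] at h1
        have h2 := norm_sub_le z z0
        linarith)) (by
      rw [Nat.choose_zero_right, Nat.cast_one, div_one, pow_zero]
      have hMr : 9 + 2 * N + r1 ≤ P := by rw [hP]; linarith
      refine fac (by positivity) ?_ hτ ?_
      · rw [div_le_div_iff₀ (by positivity) (by positivity), hr1]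
        have h3 : e / d * (P * d) = e * P := by field_simp
        rw [h3]
        have h4 : 9 + 2 * N + e / d ≤ P := by rw [← hr1]; exact hMr
        exact mul_le_mul_of_nonneg_left h4 he.le
      · have h5 : 0 ≤ 9 + 2 * N + r1 := by positivity
        have h6 : ‖z0‖ + (9 + 2 * N) + 3 * 1 ≤ 2 * P := by rw [hP]; linarith
        have h7 : 2 * (9 + 2 * N + r1) * (‖z0‖ + (9 + 2 * N) + 3 * 1) ≤ 2 * P * (2 * P) :=
          mul_le_mul (by linarith) h6 (by positivity) (by linarith)
        have h8 : (9 + 2 * N + r1) ^ 2 ≤ P ^ 2 := pow_le_pow_left₀ h5 hMr 2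
        nlinarith) (by positivity) t0
  rw [← hc1] at t1
  have t2 := chn (y := (e / (19 * s)) ^ 2 * Real.exp (-(1159 / τ ^ 2)))
    (sin_sh hd1 hd1 hA hX0 hτ hw true cl1 0 (M := 18 * s) (r := e) (by positivity)
      he (fun z hz => by
        rw [sub_zero]
        rw [hc1, Function.update_of_ne (by simp)] at hz
        have := (hcBm true 1 z).1 hz
        rw [pow_one] at this
        linarith)) (by
      rw [Nat.choose_one_right, pow_one, norm_zero, ← hs]
      have h1 : 18 * s + e ≤ 19 * s := by linarith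
      refine fac (by positivity) ?_ hτ ?_
      · exact div_le_div_of_nonneg_left he.le (by positivity) h1
      · rw [div_le_iff₀ hdp, ← hss]
        have h2 : 0 ≤ 18 * s + e := by positivity
        have h3 : (18 * s + e) * (21 * s) ≤ 19 * s * (21 * s) :=
          mul_le_mul_of_nonneg_right h1 (by positivity)
        have h4 : (18 * s + e) ^ 2 ≤ (19 * s) ^ 2 := pow_le_pow_left₀ h2 h1 2
        nlinarith) (by positivity) t1
  rw [← hc2] at t2
  have t3 := chn (y := (e / 39) ^ 2 * Real.exp (-(19500 / τ ^ 2)))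
    (sin_sh hd1 hd hA hX0 hτ hw true cl2 (2 * (d : ℂ)) (M := 38 * d) (r := e * d) (by positivity)
      (by positivity) (fun z hz => by
        rw [hc2, Function.update_of_ne (by simp), hc1, Function.update_of_ne (by simp)] at hz
        have := (hcBm true 2 z).1 hz
        rw [mul_pow, hss] at this
        have h1 := norm_sub_le z (2 * (d : ℂ))
        rw [n2d] at h1
        linarith)) (by
      rw [n2d, ← hs, hss]
      have hch : (d : ℝ) ^ 2 / 4 ≤ (d.choose 2 : ℝ) := by
        have h1 : (d.choose 2 : ℝ) = d * (d - 1) / 2 := Nat.cast_choose_two ℝ d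
        rw [h1]
        nlinarith
      have hch0 : (0 : ℝ) < (d.choose 2 : ℝ) := lt_of_lt_of_le (by positivity) hch
      have hed : 38 * (d : ℝ) + e * d ≤ 39 * d := by nlinarith
      refine fac (by positivity) ?_ hτ ?_
      · rw [div_le_div_iff₀ (by positivity) (by positivity)]
        nlinarith
      · rw [div_le_iff₀ hch0]
        have h2 : 0 ≤ 38 * (d : ℝ) + e * d := by positivity
        have h3 : (38 * (d : ℝ) + e * d) * (43 * d) ≤ 39 * d * (43 * d) :=
          mul_le_mul_of_nonneg_right hed (by positivity)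
        have h4 : (38 * (d : ℝ) + e * d) ^ 2 ≤ (39 * d) ^ 2 := pow_le_pow_left₀ h2 hed 2
        nlinarith) (by positivity) t2
  rw [← hc3] at t3
  have t4 := chn (y := (e / 12) ^ 2 * Real.exp (-(528 / τ ^ 2)))
    (sin_sh hd1 (Nat.zero_le d) hA hX0 hτ hw false cl3 (2 : ℂ) (M := 11) (r := e)
      (by norm_num) he (fun z hz => by
        rw [hc3, Function.update_of_ne (by simp), hc2, Function.update_of_ne (by simp), hc1,
          Function.update_of_ne (by simp)] at hz
        have := (hcBm false 0 z).1 hz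
        rw [pow_zero, mul_one] at this
        have h1 := norm_sub_le z (2 : ℂ)
        rw [n2] at h1
        linarith)) (by
      rw [Nat.choose_zero_right, Nat.cast_one, div_one, pow_zero, n2]
      refine fac (by positivity) ?_ hτ ?_
      · exact div_le_div_of_nonneg_left he.le (by positivity) (by linarith)
      · nlinarith) (by positivity) t3
  rw [← hc4] at t4
  have hsub : Ev w c4 ⊆ {X : CV d | AV c0 e w X} := by
    intro X hX
    have hq : ∀ q : Bool × ℕ, hm (jv X w q.2) (vv w q.1) ∈ c4 q := hX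
    have a0 := hq (true, 0)
    have a1 := hq (true, 1)
    have a2 := hq (true, 2)
    have b0 := hq (false, 0)
    rw [hc4, Function.update_of_ne (by simp), hc3, Function.update_of_ne (by simp), hc2,
      Function.update_of_ne (by simp), hc1, Function.update_self, Metric.mem_closedBall,
      dist_eq_norm, vv_true, hm_pp] at a0
    rw [hc4, Function.update_of_ne (by simp), hc3, Function.update_of_ne (by simp), hc2,
      Function.update_self, Metric.mem_closedBall, dist_zero_right, vv_true, hm_pp] at a1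
    rw [hc4, Function.update_of_ne (by simp), hc3, Function.update_self, Metric.mem_closedBall,
      dist_eq_norm, vv_true, hm_pp] at a2
    rw [hc4, Function.update_self, Metric.mem_closedBall, dist_eq_norm, vv_false] at b0
    simp only at a0 a1 a2 b0
    have a0u : ‖wd w (jv X w 0)‖ ≤ 1 := by
      have h1 := norm_add_le (wd w (jv X w 0) - z0) z0
      rw [sub_add_cancel] at h1
      linarith
    have a2u : ‖wd w (jv X w 2)‖ ≤ 3 * d := by
      have h1 := norm_add_le (wd w (jv X w 2) - 2 * (d : ℂ)) (2 * (d : ℂ))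
      rw [sub_add_cancel, n2d] at h1
      nlinarith
    have b0u : ‖hm (jv X w 0) w‖ ≤ 3 := by
      have h1 := norm_add_le (hm (jv X w 0) w - (2 : ℂ)) (2 : ℂ)
      rw [sub_add_cancel, n2] at h1
      linarith
    have hbd : ∀ k, ‖wd w (jv X w k)‖ ≤ 9 * (2 * Real.sqrt d) ^ k ∧
        ‖hm (jv X w k) w‖ ≤ 9 * (2 * Real.sqrt d) ^ k := by
      intro k
      rw [← hs]
      constructor
      · rcases Nat.lt_or_ge k 3 with hk | hk
        · interval_cases k
          · rw [pow_zero, mul_one]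
            linarith
          · rw [pow_one]
            linarith
          · rw [mul_pow, hss]
            linarith
        · have h1 := hq (true, k)
          rw [hc4, Function.update_of_ne (by simp), hc3,
            Function.update_of_ne (by simp only [ne_eq, Prod.mk.injEq, true_and]; omega), hc2,
            Function.update_of_ne (by simp only [ne_eq, Prod.mk.injEq, true_and]; omega), hc1,
            Function.update_of_ne (by simp only [ne_eq, Prod.mk.injEq, true_and]; omega)] at h1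
          have h2 := (hcBm true k _).1 h1
          rw [vv_true, hm_pp] at h2
          exact h2
      · rcases Nat.eq_zero_or_pos k with hk | hk
        · rw [hk, pow_zero, mul_one]
          linarith
        · have h1 := hq (false, k)
          rw [hc4, Function.update_of_ne (by simp only [ne_eq, Prod.mk.injEq, true_and]; omega),
            hc3, Function.update_of_ne (by simp), hc2, Function.update_of_ne (by simp), hc1,
            Function.update_of_ne (by simp)] at h1
          exact (hcBm false k _).1 h1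
    refine ⟨?_, a1, a2, ?_, hbd⟩
    · rw [← jv_zero, ← hz0, ← hr1]
      exact a0
    · rw [← jv_zero]
      exact b0
  refine le_trans (le_of_eq ?_) (t4.trans (measure_mono hsub))
  congr 1
  have e1 : (e / (19 * s)) ^ 2 = (e / 19) ^ 2 / d := by
    rw [← hss]
    field_simp
  have e2 : (e / (P * d)) ^ 2 = (e / P) ^ 2 / (d : ℝ) ^ 2 := by
    field_simp
  have hE : Real.exp (-((21187 + 9 * P ^ 2) / τ ^ 2)) = Real.exp (-(528 / τ ^ 2)) *
      (Real.exp (-(19500 / τ ^ 2)) * (Real.exp (-(1159 / τ ^ 2)) *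
        Real.exp (-(9 * P ^ 2 / τ ^ 2)))) := by
    rw [← Real.exp_add, ← Real.exp_add, ← Real.exp_add]
    congr 1
    ring
  rw [e1, e2, hE]
  field_simp

end Pool.Agent.H84.BQ
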