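import Pool.Agent.H84.BR.Plc

/-!
[H84 BQ QUA]  BARRIER in measure: quadratic polynomials.

`LimC c0`: `z ^ 2 + c0` is a limit of hyperbolic `z ^ 2 + c`. `limC_of`: let `T = a x^2 + b x + c` (`natDegree = 2`, `a ≠ 0`) be hyperbolic and close to `x^2 + c0`; the affine map `φ(x) = a x + b / 2` satisfies `φ(T x) = a T(x) + b / 2 = φ(x)^2 + c'` with `c' = a c + b / 2 - b^2 / 4` (`φ(x)^2 = a^2 x^2 + a b x + b^2 / 4`). So `z^2 + c'` is hyperbolic: `hypMap_conj` with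
the homeomorphism `Φ` of the sphere extending `φ` (`Homeomorph.onePointCongr` of an affine homeomorphism of `ℂ`) and `rat (X^2 + C c') 1 (Φ x) = Φ (rat T 1 x)` (both sides continuous, equal on the dense set `ℂ`, `Continuous.ext_on`, `OnePoint.denseRange_coe`, `rat_continuous` with `isCoprime_one_right`). `|c' - c0|` is small if
`|a - 1|, |b|, |c - c0| < δ ≤ 1`: `|c' - c0| ≤ |a - 1| |c| + |c - c0| + |b| / 2 + |b|^2 / 4 ≤ δ (|c0| + 1) + δ + δ`.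
-/

set_option autoImplicit false

open Filter Topology Polynomial Set

namespace Pool.Agent.H84.BQ

open Pool.Agent.H44.Fatou Pool.Agent.H32.BT Pool.Agent.H84.BR

/-- `z ^ 2 + c0` is a limit of hyperbolic maps `z ^ 2 + c` -/
def LimC (c0 : ℂ) : Prop := ∀ ε : ℝ, 0 < ε → ∃ c : ℂ, ‖c - c0‖ < ε ∧ HypMap (rat (X ^ 2 + C c) 1)

private theorem conj_quad {T : ℂ[X]} (hT : T.natDegree = 2) (hyp : HypMap (rat T 1)) :
    HypMap (rat (X ^ 2 + C (T.coeff 2 * T.coeff 0 + T.coeff 1 / 2 - T.coeff 1 ^ 2 / 4)) 1) := by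
  obtain ⟨a, ha⟩ : ∃ a, a = T.coeff 2 := ⟨_, rfl⟩
  obtain ⟨b, hb⟩ : ∃ b, b = T.coeff 1 := ⟨_, rfl⟩
  obtain ⟨c, hc⟩ : ∃ c, c = T.coeff 0 := ⟨_, rfl⟩
  rw [← ha, ← hb, ← hc]
  have ha0 : a ≠ 0 := by
    intro h0
    have h1 : T.coeff T.natDegree = 0 := by rw [hT, ← ha, h0]
    rw [coeff_natDegree, leadingCoeff_eq_zero] at h1
    rw [h1, natDegree_zero] at hT
    omega
  have hev : ∀ z : ℂ, T.eval z = c + b * z + a * z ^ 2 := by
    intro z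
    rw [eval_eq_sum_range, hT, Finset.sum_range_succ, Finset.sum_range_succ, Finset.sum_range_succ,
      Finset.sum_range_zero, ← ha, ← hb, ← hc]
    ring
  set Φ : OnePoint ℂ ≃ₜ OnePoint ℂ :=
    ((Homeomorph.mulLeft₀ a ha0).trans (Homeomorph.addRight (b / 2))).onePointCongr with hΦ
  have hco : ∀ z : ℂ, Φ (z : OnePoint ℂ) = ((a * z + b / 2 : ℂ) : OnePoint ℂ) := fun z => rfl
  refine (hypMap_conj Φ (f := rat T 1) (fun x => ?_)).2 hyp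
  have h1 : Continuous fun x => rat (X ^ 2 + C (a * c + b / 2 - b ^ 2 / 4)) 1 (Φ x) :=
    (rat_continuous isCoprime_one_right).comp Φ.continuous
  have h2 : Continuous fun x => Φ (rat T 1 x) :=
    Φ.continuous.comp (rat_continuous isCoprime_one_right)
  refine congrFun (Continuous.ext_on OnePoint.denseRange_coe h1 h2 ?_) x
  rintro _ ⟨z, rfl⟩
  show rat (X ^ 2 + C (a * c + b / 2 - b ^ 2 / 4)) 1 (Φ (z : OnePoint ℂ)) =
    Φ (rat T 1 (z : OnePoint ℂ))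
  have hone : ∀ w : ℂ, (1 : ℂ[X]).eval w ≠ 0 := fun w => by
    rw [eval_one]
    exact one_ne_zero
  rw [rat_coe_of_ne (hone z)]
  show rat (X ^ 2 + C (a * c + b / 2 - b ^ 2 / 4)) 1 (Φ (z : OnePoint ℂ)) =
    Φ ((T.eval z / (1 : ℂ[X]).eval z : ℂ) : OnePoint ℂ)
  rw [hco, hco]
  show rat (X ^ 2 + C (a * c + b / 2 - b ^ 2 / 4)) 1 (OnePoint.some (a * z + b / 2)) = _
  rw [rat_coe_of_ne (hone _)]
  show ((_ : ℂ) : OnePoint ℂ) = ((_ : ℂ) : OnePoint ℂ)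
  congr 1
  rw [eval_one, eval_one, hev, eval_add, eval_pow, eval_X, eval_C]
  ring

theorem limC_of {c0 : ℂ} (h : LimP 2 (X ^ 2 + C c0)) : LimC c0 := by
  intro ε hε
  obtain ⟨δ, hδ⟩ : ∃ δ : ℝ, δ = min 1 (ε / (‖c0‖ + 4)) := ⟨_, rfl⟩
  have hc0 : 0 ≤ ‖c0‖ := norm_nonneg _
  have hδ0 : 0 < δ := by
    rw [hδ]
    exact lt_min one_pos (by positivity)
  have hδ1 : δ ≤ 1 := by
    rw [hδ]
    exact min_le_left _ _
  have hδ2 : δ * (‖c0‖ + 4) ≤ ε := by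
    have h1 : δ ≤ ε / (‖c0‖ + 4) := by
      rw [hδ]
      exact min_le_right _ _
    rwa [le_div_iff₀ (by positivity)] at h1
  obtain ⟨T, hT, hcl, hyp⟩ := h δ hδ0
  refine ⟨_, ?_, conj_quad hT hyp⟩
  have h2 := hcl 2
  have h1 := hcl 1
  have h0 := hcl 0
  have e2 : (X ^ 2 + C c0 : ℂ[X]).coeff 2 = 1 := by
    rw [coeff_add, coeff_X_pow, if_pos rfl, coeff_C, if_neg (by norm_num), add_zero]
  have e1 : (X ^ 2 + C c0 : ℂ[X]).coeff 1 = 0 := by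
    rw [coeff_add, coeff_X_pow, if_neg (by norm_num), coeff_C, if_neg (by norm_num), add_zero]
  have e0 : (X ^ 2 + C c0 : ℂ[X]).coeff 0 = c0 := by
    rw [coeff_add, coeff_X_pow, if_neg (by norm_num), coeff_C, if_pos rfl, zero_add]
  rw [e2] at h2
  rw [e1, sub_zero] at h1
  rw [e0] at h0
  obtain ⟨a, ha⟩ : ∃ a, a = T.coeff 2 := ⟨_, rfl⟩
  obtain ⟨b, hb⟩ : ∃ b, b = T.coeff 1 := ⟨_, rfl⟩
  obtain ⟨c, hc⟩ : ∃ c, c = T.coeff 0 := ⟨_, rfl⟩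
  rw [← ha] at h2 ⊢
  rw [← hb] at h1 ⊢
  rw [← hc] at h0 ⊢
  have hcn : ‖c‖ ≤ ‖c0‖ + 1 := by
    have h3 : c = (c - c0) + c0 := by ring
    rw [h3]
    refine (norm_add_le _ _).trans ?_
    linarith
  have key : a * c + b / 2 - b ^ 2 / 4 - c0 = (a - 1) * c + (c - c0) + (b / 2 - b ^ 2 / 4) := by
    ring
  rw [key]
  have k1 : ‖(a - 1) * c‖ ≤ δ * (‖c0‖ + 1) := by
    rw [norm_mul]
    exact mul_le_mul h2.le hcn (norm_nonneg _) hδ0.le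
  have k2 : ‖b / 2 - b ^ 2 / 4‖ ≤ δ := by
    refine (norm_sub_le _ _).trans ?_
    rw [norm_div, norm_div, norm_pow]
    have e4 : ‖(4 : ℂ)‖ = 4 := by norm_num
    have e5 : ‖(2 : ℂ)‖ = 2 := by norm_num
    rw [e4, e5]
    have h5 : ‖b‖ ^ 2 ≤ δ := by nlinarith [norm_nonneg b]
    linarith [norm_nonneg b]
  calc ‖(a - 1) * c + (c - c0) + (b / 2 - b ^ 2 / 4)‖
      ≤ ‖(a - 1) * c + (c - c0)‖ + ‖b / 2 - b ^ 2 / 4‖ := norm_add_le _ _
    _ ≤ ‖(a - 1) * c‖ + ‖c - c0‖ + ‖b / 2 - b ^ 2 / 4‖ := by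
        have := norm_add_le ((a - 1) * c) (c - c0)
        linarith
    _ < δ * (‖c0‖ + 4) := by nlinarith
    _ ≤ ε := hδ2

end Pool.Agent.H84.BQ
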