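import Pool.Agent.H84.BQ.Rot
import Pool.Agent.H84.BQ.Clo
import Pool.Agent.H84.BQ.Qua
import Pool.Agent.H32.BT.Conv

/-!
[H84 BQ NON]  BARRIER in measure: on the event the map is not a limit of hyperbolic maps.

`NL d X`: the map given by `X` is not a limit of hyperbolic maps of degree `d`. `av_non`: `¬ LimC c0` gives `¬ LimP 2 (X^2 + C c0)` (`limC_of`), i.e. an `ε > 0` such that no hyperbolic polynomial of degree 2 is within `ε` (coefficientwise) of `T = X^2 + C c0`; `straightP` (`natDegree T = 2`) gives `η, R` for `ε`; `av_close` with `η, R` gives `e`, `d0`.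
Let `d ≥ max d0 1`, `AV c0 e (wz z) X`. `av_o`, `avo_open`: there is `ε1 > 0` such that all `Y` with `‖Y - X‖ < ε1` satisfy `AVo c0 (2 * e) (wz z) Y`. If such a `Y` is coprime of degree `d` and hyperbolic then `A' = nS Y (wz z)`, `B' = hS Y (wz z)` is coprime and hyperbolic (`scl`), `2 ≤ max` of the degrees, close to `T` on `‖s‖ ≤ R` (`av_close`; `T.eval s = s^2 + c0`), so
`straightP` gives a hyperbolic polynomial of degree 2 within `ε` of `T`: contradiction.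
`nl_smul`: `pol (t • p) = C t * pol p`, `rat_mul_const` (H32/BT/Conv.lean); `‖Y - t • X‖ < |t| ε` gives `‖t⁻¹ • Y - X‖ < ε`.
-/

set_option autoImplicit false

open Filter Topology Polynomial Set

namespace Pool.Agent.H84.BQ

open Pool.H70.SF Pool.Agent.H73.ES Pool.Agent.H91.LB
open Pool.Agent.H44.Fatou Pool.Agent.H32.BT Pool.Agent.H84.BR
open Pool.Agent.H79.Eul (pol)

/-- the map given by `X` is not a limit of hyperbolic maps of degree `d` -/
def NL (d : ℕ) (X : CV d) : Prop :=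
  ∃ ε : ℝ, 0 < ε ∧ ∀ Y : CV d, ‖Y - X‖ < ε → IsCoprime (pol Y.1) (pol Y.2) →
    max (pol Y.1).natDegree (pol Y.2).natDegree = d → ¬ HypMap (rat (pol Y.1) (pol Y.2))

private theorem pol_smul {d : ℕ} (s : ℂ) (p : Fin (d + 1) → ℂ) : pol (s • p) = pol p * C s := by
  unfold Pool.Agent.H79.Eul.pol
  rw [Finset.sum_mul]
  refine Finset.sum_congr rfl fun i _ => ?_
  rw [Pi.smul_apply, smul_eq_mul, C_mul]
  ring

theorem nl_smul (d : ℕ) (t : ℂ) (ht : t ≠ 0) (X : CV d) (h : NL d X) : NL d (t • X) := by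
  obtain ⟨ε, hε, h⟩ := h
  have ht0 : 0 < ‖t‖ := norm_pos_iff.2 ht
  have hs : t⁻¹ ≠ 0 := inv_ne_zero ht
  refine ⟨‖t‖ * ε, by positivity, fun Y hY hc hm hyp => ?_⟩
  have h1 : ‖t⁻¹ • Y - X‖ < ε := by
    have e : t⁻¹ • Y - X = t⁻¹ • (Y - t • X) := by
      rw [smul_sub, smul_smul, inv_mul_cancel₀ ht, one_smul]
    rw [e, norm_smul, norm_inv, inv_mul_lt_iff₀ ht0]
    exact hY
  have e1 : pol (t⁻¹ • Y).1 = pol Y.1 * C t⁻¹ := pol_smul t⁻¹ Y.1
  have e2 : pol (t⁻¹ • Y).2 = pol Y.2 * C t⁻¹ := pol_smul t⁻¹ Y.2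
  refine h (t⁻¹ • Y) h1 ?_ ?_ ?_
  · rw [e1, e2, isCoprime_mul_unit_right (isUnit_C.2 (isUnit_iff_ne_zero.2 hs))]
    exact hc
  · rw [e1, e2, natDegree_mul_C hs, natDegree_mul_C hs]
    exact hm
  · rw [e1, e2, rat_mul_const hs]
    exact hyp

theorem av_non {c0 : ℂ} (h : ¬ LimC c0) : ∃ e : ℝ, 0 < e ∧ e ≤ 1 / 768 ∧ ∃ d0 : ℕ, ∀ d ≥ d0, ∀ z : ℂ, ‖z‖ ≤ 1 →
    ∀ X : CV d, AV c0 e (wz z) X → NL d X := by
  have hP : ¬ LimP 2 (Polynomial.X ^ 2 + C c0) := fun h' => h (limC_of h')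
  unfold LimP at hP
  push Not at hP
  obtain ⟨ε, hε, hT⟩ := hP
  obtain ⟨η, R, hη, hst⟩ := straightP (T := Polynomial.X ^ 2 + C c0) le_rfl
    (natDegree_X_pow_add_C) ε hε
  obtain ⟨e, he, he1, d0, hcl⟩ := av_close c0 hη (R := R)
  refine ⟨e, he, he1, max d0 1, fun d hd z _ X hX => ?_⟩
  have hd1 : 1 ≤ d := le_trans (le_max_right _ _) hd
  have hd0 : d0 ≤ d := le_trans (le_max_left _ _) hd
  have hX' := av_o hd1 he hX
  obtain ⟨ε1, hε1, hball⟩ := Metric.isOpen_iff.1 (avo_open hd1 c0 (2 * e) (wz z)) X hX'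
  refine ⟨ε1, hε1, fun Y hY hc hm hyp => ?_⟩
  have hYo : AVo c0 (2 * e) (wz z) Y := hball (by
    rw [Metric.mem_ball, dist_eq_norm]
    exact hY)
  obtain ⟨h1, h2⟩ := hcl d hd0 (wz z) Y hYo
  obtain ⟨h3, h4⟩ := scl hd1 Y z hc hm
  obtain ⟨T', hT1, hT2, hT3⟩ := hst (nS Y (wz z)) (hS Y (wz z)) h3
    (le_trans h1 (le_max_left _ _)) (fun s hs => by
      obtain ⟨h5, h6⟩ := h2 s hs
      refine ⟨h5, ?_⟩
      rw [eval_add, eval_pow, eval_X, eval_C]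
      exact h6) (h4.2 hyp)
  exact hT T' hT1 hT2 hT3

end Pool.Agent.H84.BQ
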