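import Pool.Agent.H91.LB.Frm
import Pool.Agent.H84.BR.Wey

/-!
[H84 BQ ROT]  BARRIER in measure: the rational map in the chart at the point `z` of the sphere.

`(A, B) = (pol X.1, pol X.2)` coprime, `max` of the degrees `= d ≥ 1`. With `w = wz z = α (z, 1)` (`α > 0` real): `w + t • pp w = a (z - t, 1 + t conj z)` (`wz_line`), `nP X w (t) = wd w (FF X (w + t pp w))`, `hP X w (t) = hm (FF X (w + t pp w)) w` (`nP_eval`, `hP_eval`), and `hev p v = v.2^d (pol p).eval (v.1 / v.2)` for `v.2 ≠ 0` (`hev_pol`).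
`rot_zero`: for no `t` both `nP X w (t) = 0` and `hP X w (t) = 0`: otherwise `FF X v = 0` for `v = w + t pp w ≠ 0` (`n2_dec`-like: `n2 (FF X v) = ‖hm ..‖^2 + ‖wd ..‖^2`, Ndj.lean; or solve the 2x2 system directly). If `v.2 ≠ 0`: `A` and `B` vanish at `v.1 / v.2`, against `coprime_eval`. If `v.2 = 0`:
`hev p v = p_d v.1^d` and `v.1 ≠ 0`, so both coefficients of degree `d` vanish, against the degree condition (`coeff_dg`). `rot_cop`: polynomials over `ℂ` without common zero are coprime (e.g. `isCoprime_of_dvd`/`Polynomial.isCoprime_iff_aeval_ne_zero_of_isAlgClosed`, or a common irreducible factor has a root).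
`rot_hyp`: the Moebius involution `m(t) = (z - t) / (1 + t conj z)`: `m ∘ m = id`; as a map of the sphere `M = rat (C z - X) (1 + C (conj z) * X)` (coprime: determinant `1 + |z|^2 ≠ 0`), continuous (`rat_continuous`), `M (M x) = x` (on the dense set of finite points with finite nonzero denominators, then `Continuous.ext_on`), so `M` is a homeomorphism.
Conjugation: `rat (nP X w) (hP X w) (M x) = M (rat A B x)`: both sides continuous; check at the finite `x = y` with `y = m(t)`, i.e. `M x = t`, outside finitely many points: with `v = (y, 1)` up to a factor: `nP / hP (t) = (z B(y) - A(y)) / (conj z A(y) + B(y)) = m (A(y) / B(y))`. The set of `y` excluded is finite (`1 + y conj z = 0`, `B(y) = 0`,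
`conj z A(y) + B(y) = 0`), and the complement of a finite subset of `ℂ` is dense in the sphere (see `hyp_iff` in H32/BT/Top.lean). Then `hypMap_conj`. It is also possible to write `m` as a composition of maps treated in the library (`exists_mob` in H32/BT/Mob.lean for `1 / (z - s)`, scalings, translations).
`scl`: `nS (d t) = d nP (t)`, `hS (d t) = hP (t)` (`nS_eval`, ...): `scale_sphere` in H84/BR/Wey.lean; coprimality: `IsCoprime.map` for `compRingHom` (compare Emb.lean).
-/

set_option autoImplicit false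

open Polynomial Filter Topology

namespace Pool.Agent.H84.BQ

open Pool.H70.SF Pool.Agent.H73.ES Pool.Agent.H91.LB
open Pool.Agent.H44.Fatou Pool.Agent.H32.BT
open Pool.Agent.H79.Eul (pol)

private theorem hev_zero2 {d : ℕ} (p : Fin (d + 1) → ℂ) {v : ℂ × ℂ} (hv : v.2 = 0) :
    hev p v = p (Fin.last d) * v.1 ^ d := by
  unfold hev
  rw [Finset.sum_eq_single (Fin.last d)]
  · simp
  · intro k _ hk
    have h1 : (k : ℕ) < d := by
      have h2 : (k : ℕ) ≤ d := Nat.lt_succ_iff.1 k.2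
      rcases Nat.lt_or_ge (k : ℕ) d with h | h
      · exact h
      · exact absurd (Fin.ext (by simpa using le_antisymm h2 h)) hk
    rw [hv, zero_pow (by omega : d - (k : ℕ) ≠ 0), mul_zero]
  · intro h
    exact absurd (Finset.mem_univ _) h

private theorem pol_top {d : ℕ} (p : Fin (d + 1) → ℂ) : (pol p).coeff d = p (Fin.last d) := by
  unfold Pool.Agent.H79.Eul.pol
  rw [finsetSum_coeff]
  simp only [coeff_C_mul, coeff_X_pow]
  rw [Finset.sum_eq_single (Fin.last d)]
  · simp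
  · intro b _ hb
    have : d ≠ (b : ℕ) := fun h' => hb (Fin.ext (by simpa using h'.symm))
    simp [this]
  · intro h'
    exact absurd (Finset.mem_univ _) h'

private theorem cj_ne (z : ℂ) : (1 : ℂ) + z * starRingEnd ℂ z ≠ 0 := by
  rw [Complex.mul_conj, Complex.normSq_eq_norm_sq]
  have h : (0 : ℝ) < 1 + ‖z‖ ^ 2 := by positivity
  exact_mod_cast h.ne'

theorem rot_zero {d : ℕ} (hd : 1 ≤ d) (X : CV d) (z : ℂ) (hc : IsCoprime (pol X.1) (pol X.2))
    (hm : max (pol X.1).natDegree (pol X.2).natDegree = d) (t : ℂ) :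
    (nP X (wz z)).eval t ≠ 0 ∨ (hP X (wz z)).eval t ≠ 0 := by
  by_contra hcon
  push Not at hcon
  obtain ⟨h1, h2⟩ := hcon
  rw [nP_eval] at h1
  rw [hP_eval] at h2
  obtain ⟨a, ha, hline⟩ := wz_line z
  have hF := dec (wz_u z) (FF X (wz z + t • pp (wz z)))
  rw [h1, h2, zero_smul, zero_smul, add_zero] at hF
  rw [hline t] at hF
  have hF1 : hev X.1 (a * (z - t), a * (1 + t * starRingEnd ℂ z)) = 0 := congrArg Prod.fst hF
  have hF2 : hev X.2 (a * (z - t), a * (1 + t * starRingEnd ℂ z)) = 0 := congrArg Prod.snd hF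
  by_cases hv : a * (1 + t * starRingEnd ℂ z) = 0
  · have h3 : 1 + t * starRingEnd ℂ z = 0 := by
      rcases mul_eq_zero.1 hv with h | h
      · exact absurd h ha
      · exact h
    have h4 : a * (z - t) ≠ 0 := by
      refine mul_ne_zero ha fun h => ?_
      have h5 : t = z := (sub_eq_zero.1 h).symm
      rw [h5] at h3
      exact cj_ne z h3
    rw [hev_zero2 X.1 hv] at hF1
    rw [hev_zero2 X.2 hv] at hF2
    have h6 : (a * (z - t)) ^ d ≠ 0 := pow_ne_zero _ h4
    have h7 : X.1 (Fin.last d) = 0 := by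
      rcases mul_eq_zero.1 hF1 with h | h
      · exact h
      · exact absurd h h6
    have h8 : X.2 (Fin.last d) = 0 := by
      rcases mul_eq_zero.1 hF2 with h | h
      · exact h
      · exact absurd h h6
    have hdg : dg (pol X.1) (pol X.2) = d := hm
    have e1 : (pol X.1).coeff d = X.1 (Fin.last d) := pol_top X.1
    have e2 : (pol X.2).coeff d = X.2 (Fin.last d) := pol_top X.2
    rcases coeff_dg hc with h | h
    · rw [hdg, e1] at h
      exact h h7
    · rw [hdg, e2] at h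
      exact h h8
  · rw [hev_pol X.1 (w := (a * (z - t), a * (1 + t * starRingEnd ℂ z))) hv] at hF1
    rw [hev_pol X.2 (w := (a * (z - t), a * (1 + t * starRingEnd ℂ z))) hv] at hF2
    have h6 : (a * (1 + t * starRingEnd ℂ z)) ^ d ≠ 0 := pow_ne_zero _ hv
    rcases coprime_eval hc ((a * (z - t)) / (a * (1 + t * starRingEnd ℂ z))) with h | h
    · rcases mul_eq_zero.1 hF1 with h7 | h7
      · exact h6 h7
      · exact h h7
    · rcases mul_eq_zero.1 hF2 with h7 | h7
      · exact h6 h7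
      · exact h h7

theorem rot_cop {d : ℕ} (hd : 1 ≤ d) (X : CV d) (z : ℂ) (hc : IsCoprime (pol X.1) (pol X.2))
    (hm : max (pol X.1).natDegree (pol X.2).natDegree = d) : IsCoprime (nP X (wz z)) (hP X (wz z)) := by
  rw [Polynomial.isCoprime_iff_aeval_ne_zero_of_isAlgClosed (k := ℂ) ℂ]
  intro a
  have h := rot_zero hd X z hc hm a
  rwa [Polynomial.coe_aeval_eq_eval]

private theorem mb_cop (z : ℂ) : IsCoprime (C z - X : ℂ[X]) (1 + C (starRingEnd ℂ z) * X) := by
  refine ⟨C ((1 + z * starRingEnd ℂ z)⁻¹ * starRingEnd ℂ z), C ((1 + z * starRingEnd ℂ z)⁻¹), ?_⟩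
  have h : (C ((1 + z * starRingEnd ℂ z)⁻¹) : ℂ[X]) * C (1 + z * starRingEnd ℂ z) = 1 := by
    rw [← C_mul, inv_mul_cancel₀ (cj_ne z), C_1]
  calc _ = (C ((1 + z * starRingEnd ℂ z)⁻¹) : ℂ[X]) * C (1 + z * starRingEnd ℂ z) := by
        simp only [C_mul, C_add, C_1]
        ring
    _ = 1 := h

private theorem mb_at (z x y : ℂ) (hy : y ≠ 0) :
    rat (C z - X : ℂ[X]) (1 + C (starRingEnd ℂ z) * X) (Pool.Agent.H44.Fatou.pt x y) =
      Pool.Agent.H44.Fatou.pt (z * y - x) (starRingEnd ℂ z * x + y) := by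
  have h1 : Pool.Agent.H44.Fatou.pt x y = ((x / y : ℂ) : OnePoint ℂ) := by
    unfold Pool.Agent.H44.Fatou.pt
    rw [if_neg hy]
  rw [h1, rat_coe]
  have e1 : (C z - X : ℂ[X]).eval (x / y) = (z * y - x) * y⁻¹ := by
    rw [eval_sub, eval_C, eval_X]
    field_simp
  have e2 : (1 + C (starRingEnd ℂ z) * X : ℂ[X]).eval (x / y) = (starRingEnd ℂ z * x + y) * y⁻¹ := by
    rw [eval_add, eval_one, eval_mul, eval_C, eval_X]
    field_simp
    ring
  rw [e1, e2, pt_smul (inv_ne_zero hy)]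

private theorem dense_compl {Q : ℂ[X]} (hQ : Q ≠ 0) :
    Dense ((fun z : ℂ => (z : OnePoint ℂ)) '' {z : ℂ | Q.eval z = 0}ᶜ) := by
  have hfin : {z : ℂ | Q.eval z = 0}.Finite := by
    refine (Q.roots.toFinset.finite_toSet).subset ?_
    intro z hz
    rw [Finset.mem_coe, Multiset.mem_toFinset, mem_roots hQ]
    exact hz
  exact OnePoint.denseRange_coe.dense_image OnePoint.continuous_coe (hfin.countable.dense_compl ℂ)

private theorem mq_ne (z : ℂ) : (1 + C (starRingEnd ℂ z) * X : ℂ[X]) ≠ 0 := by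
  intro h
  have h1 := congrArg (Polynomial.eval 0) h
  simp at h1

private theorem mb_inv (z : ℂ) (x : OnePoint ℂ) :
    rat (C z - X : ℂ[X]) (1 + C (starRingEnd ℂ z) * X)
      (rat (C z - X : ℂ[X]) (1 + C (starRingEnd ℂ z) * X) x) = x := by
  have hcont := rat_continuous (mb_cop z)
  refine congrFun (Continuous.ext_on (dense_compl (mq_ne z)) (hcont.comp hcont) continuous_id ?_) x
  rintro _ ⟨y, hy, rfl⟩
  have hy' : (1 + C (starRingEnd ℂ z) * X : ℂ[X]).eval y ≠ 0 := hy
  have hy2 : 1 + starRingEnd ℂ z * y ≠ 0 := by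
    simpa using hy'
  show rat (C z - X : ℂ[X]) (1 + C (starRingEnd ℂ z) * X)
      (rat (C z - X : ℂ[X]) (1 + C (starRingEnd ℂ z) * X) (y : OnePoint ℂ)) = (y : OnePoint ℂ)
  rw [rat_coe _ _ y, mb_at _ _ _ hy']
  have e1 : z * (1 + C (starRingEnd ℂ z) * X : ℂ[X]).eval y - (C z - X : ℂ[X]).eval y =
      y * (1 + z * starRingEnd ℂ z) := by
    rw [eval_sub, eval_C, eval_X, eval_add, eval_one, eval_mul, eval_C, eval_X]
    ring
  have e2 : starRingEnd ℂ z * (C z - X : ℂ[X]).eval y + (1 + C (starRingEnd ℂ z) * X : ℂ[X]).eval y =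
      1 * (1 + z * starRingEnd ℂ z) := by
    rw [eval_sub, eval_C, eval_X, eval_add, eval_one, eval_mul, eval_C, eval_X]
    ring
  rw [e1, e2, pt_smul (cj_ne z)]
  unfold Pool.Agent.H44.Fatou.pt
  rw [if_neg one_ne_zero, div_one]

/-- the Moebius involution -/
private noncomputable def mbH (z : ℂ) : OnePoint ℂ ≃ₜ OnePoint ℂ where
  toFun := rat (C z - X : ℂ[X]) (1 + C (starRingEnd ℂ z) * X)
  invFun := rat (C z - X : ℂ[X]) (1 + C (starRingEnd ℂ z) * X)
  left_inv := mb_inv z
  right_inv := mb_inv z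
  continuous_toFun := rat_continuous (mb_cop z)
  continuous_invFun := rat_continuous (mb_cop z)

theorem rot_hyp {d : ℕ} (hd : 1 ≤ d) (X : CV d) (z : ℂ) (hc : IsCoprime (pol X.1) (pol X.2))
    (hm : max (pol X.1).natDegree (pol X.2).natDegree = d) :
    HypMap (rat (nP X (wz z)) (hP X (wz z))) ↔ HypMap (rat (pol X.1) (pol X.2)) := by
  have hB : pol X.2 ≠ 0 := by
    intro h
    rw [h] at hc hm
    rw [isCoprime_zero_right] at hc
    rw [natDegree_eq_zero_of_isUnit hc, natDegree_zero] at hm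
    simp at hm
    omega
  refine hypMap_conj (mbH z) fun x => ?_
  have hQ : (1 + C (starRingEnd ℂ z) * Polynomial.X : ℂ[X]) * pol X.2 ≠ 0 := mul_ne_zero (mq_ne z) hB
  have h1 : Continuous fun x => rat (nP X (wz z)) (hP X (wz z)) (mbH z x) :=
    (rat_continuous (rot_cop hd X z hc hm)).comp (mbH z).continuous
  have h2 : Continuous fun x => mbH z (rat (pol X.1) (pol X.2) x) :=
    (mbH z).continuous.comp (rat_continuous hc)
  refine congrFun (Continuous.ext_on (dense_compl hQ) h1 h2 ?_) x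
  rintro _ ⟨y, hy, rfl⟩
  have hy' : ((1 + C (starRingEnd ℂ z) * Polynomial.X : ℂ[X]) * pol X.2).eval y ≠ 0 := hy
  rw [eval_mul] at hy'
  have hy1 : (1 + C (starRingEnd ℂ z) * Polynomial.X : ℂ[X]).eval y ≠ 0 := left_ne_zero_of_mul hy'
  have hy2 : (pol X.2).eval y ≠ 0 := right_ne_zero_of_mul hy'
  have hy3 : 1 + starRingEnd ℂ z * y ≠ 0 := by simpa using hy1
  show rat (nP X (wz z)) (hP X (wz z)) (rat (C z - Polynomial.X : ℂ[X])
      (1 + C (starRingEnd ℂ z) * Polynomial.X) (y : OnePoint ℂ)) =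
    rat (C z - Polynomial.X : ℂ[X]) (1 + C (starRingEnd ℂ z) * Polynomial.X)
      (rat (pol X.1) (pol X.2) (y : OnePoint ℂ))
  rw [rat_coe (pol X.1) (pol X.2) y, mb_at _ _ _ hy2, rat_coe_of_ne hy1, rat_coe]
  have e1 : (C z - Polynomial.X : ℂ[X]).eval y = z - y := by rw [eval_sub, eval_C, eval_X]
  have e2 : (1 + C (starRingEnd ℂ z) * Polynomial.X : ℂ[X]).eval y = 1 + starRingEnd ℂ z * y := by
    rw [eval_add, eval_one, eval_mul, eval_C, eval_X]
  rw [e1, e2]
  obtain ⟨a, ha, hline⟩ := wz_line z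
  set t : ℂ := (z - y) / (1 + starRingEnd ℂ z * y) with ht
  set κ : ℂ := a * ((1 + z * starRingEnd ℂ z) / (1 + starRingEnd ℂ z * y)) with hκ
  have hκ0 : κ ≠ 0 := mul_ne_zero ha (div_ne_zero (cj_ne z) hy3)
  have htD : t * (1 + starRingEnd ℂ z * y) = z - y := div_mul_cancel₀ _ hy3
  have hκD : κ * (1 + starRingEnd ℂ z * y) = a * (1 + z * starRingEnd ℂ z) := by
    rw [hκ, mul_assoc, div_mul_cancel₀ _ hy3]
  have hv : wz z + t • pp (wz z) = κ • ((y, 1) : ℂ × ℂ) := by
    rw [hline t]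
    ext
    · show a * (z - t) = κ * y
      apply mul_right_cancel₀ hy3
      linear_combination (-a) * htD - y * hκD
    · show a * (1 + t * starRingEnd ℂ z) = κ * 1
      apply mul_right_cancel₀ hy3
      linear_combination (a * starRingEnd ℂ z) * htD - hκD
  have hhev : ∀ p : Fin (d + 1) → ℂ, hev p (wz z + t • pp (wz z)) = κ ^ d * (pol p).eval y := by
    intro p
    rw [hv, hev_hom, hev_pol p (w := (y, 1)) one_ne_zero]
    simp
  have hr0 : (((Real.sqrt (1 + ‖z‖ ^ 2))⁻¹ : ℝ) : ℂ) ≠ 0 := by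
    have h0 : (0 : ℝ) < 1 + ‖z‖ ^ 2 := by positivity
    have h1 : 0 < Real.sqrt (1 + ‖z‖ ^ 2) := Real.sqrt_pos.2 h0
    exact_mod_cast (inv_pos.2 h1).ne'
  set r : ℂ := (((Real.sqrt (1 + ‖z‖ ^ 2))⁻¹ : ℝ) : ℂ) with hr
  have hw1 : (wz z).1 = r * z := by
    unfold wz
    simp [hr]
  have hw2 : (wz z).2 = r := by
    unfold wz
    simp [hr]
  have hrc : starRingEnd ℂ r = r := by
    rw [hr, Complex.conj_ofReal]
  have hn : (nP X (wz z)).eval t = (z * (pol X.2).eval y - (pol X.1).eval y) * (κ ^ d * r) := by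
    rw [nP_eval]
    unfold wd FF
    simp only [hhev, hw1, hw2]
    ring
  have hh : (hP X (wz z)).eval t = (starRingEnd ℂ z * (pol X.1).eval y + (pol X.2).eval y) * (κ ^ d * r) := by
    rw [hP_eval]
    unfold Pool.Agent.H73.ES.hm FF
    simp only [hhev, hw1, hw2, map_mul, hrc]
    ring
  rw [hn, hh, pt_smul (mul_ne_zero (pow_ne_zero _ hκ0) hr0)]

theorem scl {d : ℕ} (hd : 1 ≤ d) (X : CV d) (z : ℂ) (hc : IsCoprime (pol X.1) (pol X.2))
    (hm : max (pol X.1).natDegree (pol X.2).natDegree = d) : IsCoprime (nS X (wz z)) (hS X (wz z)) ∧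
    (HypMap (rat (nS X (wz z)) (hS X (wz z))) ↔ HypMap (rat (pol X.1) (pol X.2))) := by
  have hd0 : (d : ℂ) ≠ 0 := by
    have : d ≠ 0 := by omega
    exact_mod_cast this
  have h0 := rot_cop hd X z hc hm
  have h1 : IsCoprime (nS X (wz z)) (hS X (wz z)) := by
    have h2 : IsCoprime ((nP X (wz z)).comp (C ((d : ℂ)⁻¹) * Polynomial.X))
        ((hP X (wz z)).comp (C ((d : ℂ)⁻¹) * Polynomial.X)) :=
      h0.map (compRingHom (C ((d : ℂ)⁻¹) * Polynomial.X))
    unfold nS hS
    exact (isCoprime_mul_unit_left_left (isUnit_C.2 (isUnit_iff_ne_zero.2 hd0)) _ _).2 h2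
  refine ⟨h1, ?_⟩
  rw [← rot_hyp hd X z hc hm]
  refine Pool.Agent.H84.BR.scale_sphere hd0 h0 h1 (fun t => ?_) (fun t => ?_)
  · unfold nS
    rw [eval_mul, eval_C, eval_comp, eval_mul, eval_C, eval_X, inv_mul_cancel_left₀ hd0]
  · unfold hS
    rw [eval_comp, eval_mul, eval_C, eval_X, inv_mul_cancel_left₀ hd0]

end Pool.Agent.H84.BQ
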